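import Mathlib

/-!
# MP_d3e607_co (S11671), MP_fd105e_co: interface

If the fractional arboricity of `G` is at most `K + 1 - ε` then `G` is covered by `K` forests and one
forest whose components have bounded size (`S_MAIN`). With S09049 (a forest and a forest with
components of bounded diameter repartition into two forests with components of bounded diameter)
this gives S11671. Statements of the pieces, every piece with its proof in its doc string.
-/

set_option autoImplicit false

namespace Pool.Agent.Run7.h970.ND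

open SimpleGraph

/-- `y` is the parent of `x` in `T` rooted at `r` (used for forests `T`). -/
def Par {V : Type} (T : SimpleGraph V) (r x y : V) : Prop :=
  T.Adj x y ∧ (T.deleteEdges {s(x, y)}).Reachable y r

/-- `F` is a tree without one edge, `D` is the side which does not contain `r`. -/
def Hole {V : Type} (F : SimpleGraph V) (r : V) (D : Set V) : Prop :=
  r ∉ D ∧ (∀ x y, F.Adj x y → (x ∈ D ↔ y ∈ D)) ∧
    ∀ x y, x ∉ D → y ∈ D → (F ⊔ edge x y).IsTree

/-- The root of the `a`-th component. -/
def rt {V : Type} (r : V) (w : ℕ → V) : ℕ → V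
  | 0 => r
  | a + 1 => w a

/-- The union of the components number `0, ..., a`. -/
def St {V : Type} (R : SimpleGraph V) (r : V) (w : ℕ → V) (a : ℕ) : Set V :=
  {v | ∃ c, c ≤ a ∧ R.Reachable (rt r w c) v}

/-- A legal sequence of length `l`: for `a < l` the vertex `w a` is the parent (in the tree number
`β a`) of a vertex `u a` of `St a`, and it is not in `St a`. -/
def Leg {V ι : Type} (F : ι → SimpleGraph V) (R : SimpleGraph V) (r : V) (u w : ℕ → V)
    (β : ℕ → ι) (l : ℕ) : Prop :=
  ∀ a, a < l → u a ∈ St R r w a ∧ w a ∉ St R r w a ∧ Par (F (β a)) r (u a) (w a)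

/-- `G` is covered by the trees `T b` (trees on all of `V`, not necessarily in `G`) and the forest
`R` of `G`. -/
structure Cfg {V ι : Type} (G : SimpleGraph V) (T : ι → SimpleGraph V) (R : SimpleGraph V) :
    Prop where
  tree : ∀ b, (T b).IsTree
  acyc : R.IsAcyclic
  le : R ≤ G
  cov : ∀ x y, G.Adj x y → R.Adj x y ∨ ∃ b, (T b).Adj x y

/-- Number of edges of `G` inside `S`. -/
noncomputable def ec {V : Type} (G : SimpleGraph V) (S : Set V) : ℕ :=
  {e | e ∈ G.edgeSet ∧ ∀ v ∈ e, v ∈ S}.ncard

/-- Size of the component of `v`. -/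
noncomputable def cs {V : Type} (R : SimpleGraph V) (v : V) : ℕ := {x | R.Reachable v x}.ncard

/-- **Piece JOIN**. Adding a matching between different components of a forest. Proof: the relation
`H.Reachable v z ∨ ∃ a ∈ A, v and z are both in comp (x a) ∪ comp (y a)` is transitive and contains
the adjacency of `H ⊔ M`. For the acyclicity apply this to `H` without an edge `g` (for the
edges `g` of `H`) and to `A.erase a` (for the new edges): every edge is a bridge
(`isAcyclic_iff_forall_adj_isBridge`, `isBridge_iff`). -/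
def S_JOIN : Prop :=
  ∀ (V : Type) [Fintype V] (H : SimpleGraph V) (A : Finset ℕ) (x y : ℕ → V),
    H.IsAcyclic →
    (∀ a ∈ A, ∀ c ∈ A, a ≠ c → ¬ H.Reachable (x a) (x c)) →
    (∀ a ∈ A, ∀ c ∈ A, a ≠ c → ¬ H.Reachable (y a) (y c)) →
    (∀ a ∈ A, ∀ c ∈ A, ¬ H.Reachable (x a) (y c)) →
    (H ⊔ fromEdgeSet {e | ∃ a ∈ A, e = s(x a, y a)}).IsAcyclic ∧
    ∀ v z, (H ⊔ fromEdgeSet {e | ∃ a ∈ A, e = s(x a, y a)}).Reachable v z →
      H.Reachable v z ∨ ∃ a ∈ A, (H.Reachable (x a) v ∨ H.Reachable (y a) v) ∧
        (H.Reachable (x a) z ∨ H.Reachable (y a) z)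

/-- **Piece SEP**. The edges `x → yy x`, `x ∈ X`, are removed from the tree `T`; the forest `R` has `X`
in one component. There is a set `Y` of `|X| - 1` edges of this component such that `R` without `Y`
separates the vertices of `X`, and `T` without the edges `x → yy x` with the edges `Y` is a
tree without an edge, whose side `D` contains `x1`.

Proof. Let `P` be `T` without the `|X|` edges `x → yy x` (it has `|X| + 1` components: every vertex is
`P`-reachable from `r` or from a vertex of `X`, the vertices `r` and `x ∈ X` are pairwise not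
`P`-reachable). Let `C` be the `R`-component of `x1`, `K = {v | v = x1 ∨ v ∉ C}`, `pp z` the next vertex on the
`R`-path from `z` to `x1` (`z ∉ K`). `Pool.Agent.Run7.h680.BD.root_exists` gives `q` with
`∑ z, q x z * (g z - g (pp z)) = g x - g x1` for `x ∈ C`. Apply
`Pool.Agent.Run7.h497.BD.t_LA` to `E = {g : V → ℚ constant along the edges of P, g r = g x1 = 0}`,
`α z g = g z - g (pp z)` (`0` if `z ∈ K`), `β z : V → ℚ`, `β z x = q x z` if `x ∈ X`, `x ≠ x1`, and `0` otherwise
(`∑ α z g * β z x = g x - g x1 = g x`, so it vanishes only if `g = 0`). As in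
`Pool.Agent.Run7.h680.BD.core`: (1) `P` with the edges `z → pp z`, `z ∈ Y`, and the edge `r x1` is connected
(a function constant along its edges, `0` at `r`, is in `E` and killed by `α z`, `z ∈ Y`).
(2) `Y ∩ K = ∅`, and in `A'` = the edges `z → pp z`, `z ∉ K ∪ Y`, every vertex of `C` reaches `X` (take
`g = 0` on the vertices which reach `X` and `1` otherwise, `d z = g z - g (pp z)` for `z ∈ Y`).
Counting: (1) gives `|V| - 1 ≤ (|V| - 1 - |X|) + |Y| + 1`; independence gives `|Y| ≤ |X| - 1`. So
`|Y| = |X| - 1` and (1) is a tree by `isTree_iff_connected_and_card`; without the edge `r x1` it has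
two sides. If two vertices `x ≠ x'` of `X` were reachable in `R` without `Y`, then in `A'` every
vertex of `C` would reach `X \ {x'}`, so `A'` had at least `|C| - |X| + 1` edges; it
has `|C| - 1 - |Y| = |C| - |X|`. -/
def S_SEP : Prop :=
  ∀ (V : Type) [Fintype V] (T R : SimpleGraph V) (r x1 : V) (X : Finset V) (yy : V → V),
    T.IsTree → R.IsAcyclic → x1 ∈ X → (∀ x ∈ X, Par T r x (yy x)) →
    (∀ x ∈ X, R.Reachable x1 x) →
    ∃ (Y : Finset (Sym2 V)) (D : Set V), (Y : Set (Sym2 V)) ⊆ R.edgeSet ∧ Y.card + 1 = X.card ∧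
      (∀ e ∈ Y, ∀ z ∈ e, R.Reachable x1 z) ∧
      (∀ x ∈ X, ∀ x' ∈ X, x ≠ x' → ¬ (R.deleteEdges (Y : Set (Sym2 V))).Reachable x x') ∧
      x1 ∈ D ∧
      Hole (T.deleteEdges {e | ∃ x ∈ X, e = s(x, yy x)} ⊔ fromEdgeSet (Y : Set (Sym2 V))) r D

/-- **Piece NW** (Nash-Williams). A graph with at most `(|ι| + 1) (|S| - 1)` edges inside of every
nonempty `S` has a configuration.

Proof. Call `(T, R)` a cover if the `T b` are trees on `V`, `R ≤ G` and `cov` holds (`R` may have
cycles); there is one (`R = G`, `T b` a star). Take the covers with the smallest number of edges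
of `R`, and among these one with the smallest number of components of `R`. If `R` is acyclic this
is a configuration. Otherwise let `r` be on a cycle of `R` (there is `r'` with `R.Adj r r'`, reachable without
the edge `r r'`); choose the cover and `r` such that the component `U` of `r` in `R` is as small as
possible. (a) Claim: if `x ∈ U`, `Par (T b) r x y`, then the edge `x y` is in `G`, not in `R`, not in `T b'`,
`b' ≠ b`. Let `D` be the set of the vertices not reachable from `r` in `T b` without `x y`
(`x ∈ D`, `r ∉ D`); the `R`-path from `r` to `x` has an edge `e` crossing `D`; replace `x y` by `e` in `T b`, delete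
`e` from `R`; if the claim fails this is a cover with fewer `R`-edges. (b) Claim: `y ∈ U`. If not, make
the same exchange and add `x y` to `R`. If `e` is not a bridge of `R` the number of
components of `R` decreased. If it is, the number of components is not larger, the component
of `r` is now smaller (it lost `x`), and `r` is still on a cycle. (c) So for `x ∈ U`, `x ≠ r`, and
every `b` the edge from `x` to its parent in `T b` is inside of `U`; these are `|ι| (|U| - 1)` different
edges, not in `R`, and `R` has at least `|U|` edges inside of `U` (connected with a cycle), so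
`(|ι| + 1) (|U| - 1) + 1 ≤ ec G U`, a contradiction. -/
def S_NW : Prop :=
  ∀ (V : Type) [Fintype V] [Nonempty V] (ι : Type) [Fintype ι] (G : SimpleGraph V),
    (∀ S : Set V, S.Nonempty → ec G S ≤ (Fintype.card ι + 1) * (S.ncard - 1)) →
    ∃ (T : ι → SimpleGraph V) (R : SimpleGraph V), Cfg G T R

/-- **Piece CNT** (edges in a closed set). `U = St R r w L`. Proof: for `x ∈ U`, `x ≠ r` and every `b`
the edge from `x` to its parent (which exists and is unique) in `T b`: `|ι| (|U| - 1)` different edges of `G`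
inside of `U`, not in `R`. In `R` every vertex of `U` which is not one of the `L + 1` roots
has a parent edge (the first edge of the path to the root of its component; `Par R (root) x y`):
`|U| - (L + 1)` different edges of `R` inside of `U`. -/
def S_CNT : Prop :=
  ∀ (V : Type) [Fintype V] (ι : Type) [Fintype ι] (G : SimpleGraph V) (T : ι → SimpleGraph V)
    (R : SimpleGraph V) (r : V) (w : ℕ → V) (L : ℕ),
    Cfg G T R →
    (∀ a, a < L → w a ∉ St R r w a) →
    (∀ x ∈ St R r w L, ∀ b y, Par (T b) r x y → y ∈ St R r w L ∧ G.Adj x y ∧ ¬ R.Adj x y ∧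
      ∀ b', b' ≠ b → ¬ (T b').Adj x y) →
    Fintype.card ι * ((St R r w L).ncard - 1) + ((St R r w L).ncard - (L + 1)) ≤
      ec G (St R r w L)

/-- **Piece LEX** (a minimal closed legal sequence). Proof: for `l = 0, 1, ...` there is a member of the class
with a legal sequence of length `l` such that the last property holds for `l' ≤ l`; if it is not
closed, extend `u, w, β` at `l` by `x, y, b` with `x ∈ St l`, `y ∉ St l`, `Par (T b) r x y`, and among the members
of the class for which this is a legal sequence of length `l + 1` with the same sets `St a`, `a ≤ l`,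
take one with the smallest `(St (l + 1)).ncard`. As `l + 1 ≤ (St l).ncard ≤ |V|` this ends. -/
def S_LEX : Prop :=
  ∀ (V : Type) [Fintype V] (ι : Type) [Fintype ι] [Nonempty ι] (r : V)
    (C : (ι → SimpleGraph V) → SimpleGraph V → Prop), (∃ T R, C T R) →
    ∃ (T : ι → SimpleGraph V) (R : SimpleGraph V) (u w : ℕ → V) (β : ℕ → ι) (L : ℕ),
      C T R ∧ Leg T R r u w β L ∧
      (∀ x ∈ St R r w L, ∀ b y, Par (T b) r x y → y ∈ St R r w L) ∧
      ∀ T' R' l', C T' R' → l' ≤ L → Leg T' R' r u w β l' →
        (∀ a, a < l' → St R' r w a = St R r w a) →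
        (St R r w l').ncard ≤ (St R' r w l').ncard

/-- **Piece CHN** (chain of exchanges; helper970). -/
def S_CHN : Prop :=
  ∀ (V : Type) [Fintype V] (ι : Type) [DecidableEq ι] (R : SimpleGraph V) (r : V)
    (u w : ℕ → V) (β : ℕ → ι) (l : ℕ) (F : ι → SimpleGraph V) (b : ι) (D : Set V),
    R.IsAcyclic → (∀ c, c ≠ b → (F c).IsTree) → Hole (F b) r D → Leg F R r u w β l →
    (∀ a, a < l → ∀ v ∈ D, v ∉ St R r w a) → (∃ v ∈ D, R.Reachable (rt r w l) v) →
    ∃ (F' : ι → SimpleGraph V) (e : Sym2 V) (l' : ℕ) (v : V), l' ≤ l ∧ (∀ c, (F' c).IsTree) ∧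
      (∀ x y, (∃ c, (F' c).Adj x y) ↔ ((∃ c, (F c).Adj x y) ∨ s(x, y) = e)) ∧
      e ∈ R.edgeSet ∧ Leg F' R r u w β l' ∧ R.Reachable (rt r w l') v ∧
      ¬ (R.deleteEdges {e}).Reachable (rt r w l') v

/-- **Piece MX** (the exchange; uses CHN, SEP, JOIN; helper970). The indices `a ∈ A` have
the same tree `b`, the `u a` are in the component of `rt i`, the components of `w a` have size at most
`s`. -/
def S_MX : Prop :=
  ∀ (V : Type) [Fintype V] (ι : Type) [Fintype ι] (G : SimpleGraph V) (T : ι → SimpleGraph V)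
    (R : SimpleGraph V) (r : V) (u w : ℕ → V) (β : ℕ → ι) (L : ℕ) (A : Finset ℕ) (b : ι)
    (i s : ℕ),
    Cfg G T R → Leg T R r u w β L →
    (∀ x ∈ St R r w L, ∀ b y, Par (T b) r x y → G.Adj x y ∧ ¬ R.Adj x y ∧
      ∀ b', b' ≠ b → ¬ (T b').Adj x y) →
    A.Nonempty → (∀ a ∈ A, a < L ∧ β a = b ∧ R.Reachable (rt r w i) (u a) ∧ cs R (w a) ≤ s) →
    (A.card = 1 ∨ s + 2 ≤ A.card) →
    ∃ (T' : ι → SimpleGraph V) (R' : SimpleGraph V) (l' : ℕ), l' ≤ L ∧ Cfg G T' R' ∧
      R'.edgeSet.ncard ≤ R.edgeSet.ncard ∧ Leg T' R' r u w β l' ∧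
      (∀ a, a < l' → St R' r w a = St R r w a) ∧
      (∀ v, cs R' v ≤ cs R v ∨ cs R' v + A.card ≤ cs R (rt r w i) + 1 + s) ∧
      (St R' r w l').ncard < (St R r w l').ncard

/-- **Piece RED** (uses CHN; helper970). No edge of the trees is redundant. -/
def S_RED : Prop :=
  ∀ (V : Type) [Fintype V] (ι : Type) [Fintype ι] (G : SimpleGraph V) (T : ι → SimpleGraph V)
    (R : SimpleGraph V) (r : V) (u w : ℕ → V) (β : ℕ → ι) (L : ℕ),
    Cfg G T R → (∀ (T' : ι → SimpleGraph V) (R' : SimpleGraph V), Cfg G T' R' →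
      R.edgeSet.ncard ≤ R'.edgeSet.ncard) →
    Leg T R r u w β L →
    ∀ x ∈ St R r w L, ∀ b y, Par (T b) r x y → G.Adj x y ∧ ¬ R.Adj x y ∧
      ∀ b', b' ≠ b → ¬ (T b').Adj x y

/-- The main theorem: a qualitative strong nine dragon tree theorem (`|ι| = K ≥ 1`). -/
def S_MAIN : Prop :=
  ∀ (K : ℕ) (ε : ℝ), 1 ≤ K → 0 < ε → ∃ μ : ℕ, ∀ (V : Type) [Fintype V] [Nonempty V]
    (G : SimpleGraph V),
    (∀ S : Set V, 2 ≤ S.ncard → (ec G S : ℝ) ≤ ((K : ℝ) + 1 - ε) * ((S.ncard : ℝ) - 1)) →
    ∃ (T : Fin K → SimpleGraph V) (R : SimpleGraph V), Cfg G T R ∧ ∀ v, cs R v ≤ μ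

/-- **Piece BND** (counting the components). Proof: the components of the `L + 1` roots are disjoint subsets
of `U = St R r w L`. The `a < L` with `s < cs R (w a)`: at most `|U| / (s + 1)`. The `i ≤ L` with
`ν ≤ cs R (rt i) + s`: at most `|U| / (ν - s)`; every other `a < L` has `u a` in the component of such an `i`, and
there are at most `s + 1` of them for every `i` and every value of `β a`. -/
def S_BND : Prop :=
  ∀ (V : Type) [Fintype V] (ι : Type) [Fintype ι] (R : SimpleGraph V) (r : V) (u w : ℕ → V)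
    (β : ℕ → ι) (L s ν : ℕ), s < ν →
    (∀ a, a < L → u a ∈ St R r w a ∧ w a ∉ St R r w a) →
    (∀ a i, a < L → cs R (w a) ≤ s → R.Reachable (rt r w i) (u a) → ν ≤ cs R (rt r w i) + s) →
    (∀ (A : Finset ℕ) (b : ι) (i : ℕ), (∀ a ∈ A, a < L ∧ β a = b ∧ R.Reachable (rt r w i) (u a) ∧
      cs R (w a) ≤ s) → A.card ≤ s + 1) →
    (ν - s) * (s + 1) * L ≤
      (ν - s) * (St R r w L).ncard + Fintype.card ι * (s + 1) * (s + 1) * (St R r w L).ncard

/-- **Piece END** (`S_NW`, `S_CNT`, `S_LEX`, `S_MX`, `S_RED`, `S_BND` give `S_MAIN`).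

Proof. Let `s ≥ 4 / ε` and `μ` so large that `K (s + 1) / (μ - s) < ε / 4`. Let `m₁` be the smallest number of
edges of `R` over all configurations (there is one by `S_NW`), `ν` the smallest number such that
there is a configuration with `m₁` edges and all `cs R v ≤ ν`; suppose `ν > μ`. Let `N₀` be the smallest
`{v | ν ≤ cs R v}.ncard` over these configurations (it is positive), fix such a configuration
and `r` with `cs R r = ν`. Apply `S_LEX` to the class `C` of the configurations with `m₁` edges,
all `cs R v ≤ ν`, `{v | ν ≤ cs R v}.ncard ≤ N₀` and `cs R r = ν`. Let `U = St R r w L`. By `S_RED` and `S_CNT`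
`K (|U| - 1) + |U| - (L + 1) ≤ ec G U ≤ (K + 1 - ε) (|U| - 1)`, so `ε (|U| - 1) ≤ L`.
By `S_MX`, there is no `A` as there with `cs R (rt i) + 1 + s < ν + |A|`: the new configuration has all `cs R' v ≤ ν`,
`{v | ν ≤ cs R' v} ⊆ {v | ν ≤ cs R v}`; if `l' = 0` then `r` is not in the new set, and `N₀` was not minimal; if
`l' > 0` then `St R' r w 0 = St R r w 0`, so `cs R' r = ν`, the new configuration is in `C` and contradicts
the minimality of the sequence. (`|A| = 1`): if `a < L`, `cs R (w a) ≤ s` and `u a` is in the component `i` then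
`ν - s ≤ cs R (rt i)`. (`|A| = s + 2`): for every `i` and `b` there are at most `s + 1` indices `a < L` with
`cs R (w a) ≤ s`, `β a = b` and `u a` in the component `i`. By `S_BND`
`L ≤ |U| / (s + 1) + K (s + 1) |U| / (ν - s) < ε |U| / 2`, a contradiction as `|U| ≥ ν ≥ 2`.
(For `S_NW`: `ε ≤ K + 1 - ε` may be assumed or the graph has no edges; `ec G S` is an integer
`≤ (K + 1 - ε) (|S| - 1)`, so `≤ (K + 1) (|S| - 1)`; `ec G S = 0` if `|S| = 1`.) -/
def S_END : Prop := S_NW → S_CNT → S_LEX → S_MX → S_RED → S_BND → S_MAIN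

/-- The type of S11671. -/
def S_GOAL : Prop :=
  ∀ (k : ℕ) (ε : ℝ), 0 < ε → ∃ d : ℕ,
    ∀ (V : Type) [Fintype V] (G : SimpleGraph V) [DecidableRel G.Adj],
      (∀ S : Finset V, 2 ≤ S.card →
        (((S ×ˢ S).filter (fun p => G.Adj p.1 p.2)).card : ℝ)
          ≤ 2 * ((k : ℝ) - ε) * ((S.card : ℝ) - 1)) →
      ∃ c : G.edgeSet → Fin k, ∀ i : Fin k,
        (SimpleGraph.fromEdgeSet {e | ∃ h : e ∈ G.edgeSet, c ⟨e, h⟩ = i}).IsAcyclic ∧
        ∀ u v : V,
          (SimpleGraph.fromEdgeSet {e | ∃ h : e ∈ G.edgeSet, c ⟨e, h⟩ = i}).Reachable u v →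
          (SimpleGraph.fromEdgeSet {e | ∃ h : e ∈ G.edgeSet, c ⟨e, h⟩ = i}).dist u v ≤ d

/-- **Piece FIN**. Proof. `k ≤ 1`: `G` has no edges (`|S| = 2`). `V` empty: trivial. Let `k = K + 1`,
`K ≥ 1`, and `μ` from `S_MAIN` (the number of adjacent pairs in `S` is `2 ec G S`). So `G` is the union
of `K` pairwise disjoint forests `A 1, ..., A K` and a forest `B` disjoint from them, whose components have at
most `μ` vertices, so `B.dist u v ≤ μ` if `B.Reachable u v` (`A j`: the edges of `G` in `T j`, not in `R` and not in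
`T i`, `i < j`). By induction on `j` there is a number `d j` (a function of `μ` and `j` only), forests `H 1, ..., H j` and
`B'` with components of diameter at most `d j`, pairwise disjoint, with the union `A 1 ∪ ... ∪ A j ∪ B`:
apply `Pool.Agent.S09049.result` to `A (j + 1)` and `B'`. The classes of the colouring are the final `H 1, ..., H K, B'`.
Uses `import Pool.Agent.S09049`. -/
def S_FIN : Prop := S_MAIN → S_GOAL

end Pool.Agent.Run7.h970.ND
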