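import Pool.Agent.Run7.h970.ND.All

/-!
# The strong nine dragon tree theorem with an explicit bound

`t_X` is `S_MAIN` with an explicit `μ`; the proof is the one of `Pool.Agent.Run7.h141.ND.t_END`
(helper141) with the bound in the statement.
-/

set_option autoImplicit false

namespace Pool.Agent.Run7.h970.ND

open SimpleGraph Pool.Agent.Run7.h141.ND

theorem t_X (K : ℕ) (ε : ℝ) (hK : 1 ≤ K) (hε : 0 < ε) (V : Type) [Fintype V] [Nonempty V]
    (G : SimpleGraph V)
    (hG : ∀ S : Set V, 2 ≤ S.ncard →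
      (ec G S : ℝ) ≤ ((K : ℝ) + 1 - ε) * ((S.ncard : ℝ) - 1)) (s c₀ : ℕ) (hs : s = ⌈4 / ε⌉₊)
    (hc₀ : c₀ = ⌈4 * (K : ℝ) * ((s : ℝ) + 1) / ε⌉₊) :
    ∃ (T : Fin K → SimpleGraph V) (R : SimpleGraph V), Cfg G T R ∧ ∀ v, cs R v ≤ s + c₀ + 2 := by
  have hNW := Pool.Agent.Run7.h799.ND.t_NW
  have hCNT := Pool.Agent.Run7.h688.ND.t_CNT
  have hLEX := Pool.Agent.Run7.h24.ND.t_LEX
  have hMX := t_MX Pool.Agent.Run7.h680.ND.t_SEP Pool.Agent.Run7.h24.ND.t_JOIN
  have hRED := t_RED
  have hBND := Pool.Agent.Run7.h799.ND.t_BND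
  have : Nonempty (Fin K) := ⟨⟨0, hK⟩⟩
  have hs4 : 4 < ε * ((s : ℝ) + 1) := by
    have h1 : 4 / ε ≤ (s : ℝ) := by rw [hs]; exact Nat.le_ceil _
    rw [div_le_iff₀ hε] at h1
    nlinarith
  obtain ⟨T0, R0, h0⟩ := hNW V (Fin K) G (by
    intro S hS
    rw [Fintype.card_fin]
    rcases Nat.lt_or_ge S.ncard 2 with h | h
    · rw [ec_one G (by omega)]
      exact Nat.zero_le _
    · have h1 := hG S h
      have h2 : (2 : ℝ) ≤ S.ncard := by exact_mod_cast h
      have h3 : (ec G S : ℝ) ≤ ((K : ℝ) + 1) * ((S.ncard : ℝ) - 1) :=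
        h1.trans (mul_le_mul_of_nonneg_right (by linarith) (by linarith))
      have h4 : ((S.ncard - 1 : ℕ) : ℝ) = (S.ncard : ℝ) - 1 := by
        rw [Nat.cast_sub (by omega)]
        simp
      rw [← h4] at h3
      exact_mod_cast h3)
  by_contra hcon
  push Not at hcon
  -- the minimal number of edges
  obtain ⟨m₁, ⟨T1, R1, hc1, hm1⟩, hmin1⟩ := exists_least
    (P := fun m => ∃ (T : Fin K → SimpleGraph V) (R : SimpleGraph V),
      Cfg G T R ∧ R.edgeSet.ncard = m) ⟨_, T0, R0, h0, rfl⟩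
  have hm : ∀ (T : Fin K → SimpleGraph V) (R : SimpleGraph V), Cfg G T R →
      m₁ ≤ R.edgeSet.ncard := fun T R h => hmin1 _ ⟨T, R, h, rfl⟩
  -- the minimal size of the largest component
  have hcard : ∀ v, cs R1 v ≤ Fintype.card V := by
    intro v
    refine (Set.ncard_le_ncard (Set.subset_univ _) (Set.toFinite _)).trans ?_
    rw [Set.ncard_univ, Nat.card_eq_fintype_card]
  obtain ⟨ν, ⟨T2, R2, hc2, hm2, hν2⟩, hmin2⟩ := exists_least
    (P := fun n => ∃ (T : Fin K → SimpleGraph V) (R : SimpleGraph V),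
      Cfg G T R ∧ R.edgeSet.ncard = m₁ ∧ ∀ v, cs R v ≤ n) ⟨_, T1, R1, hc1, hm1, hcard⟩
  have hνμ : s + c₀ + 2 < ν := by
    obtain ⟨v, hv⟩ := hcon T2 R2 hc2
    exact lt_of_lt_of_le hv (hν2 v)
  -- the minimal number of the vertices in the largest components
  obtain ⟨N₀, ⟨T3, R3, hc3, hm3, hν3, hN3⟩, hmin3⟩ := exists_least
    (P := fun N => ∃ (T : Fin K → SimpleGraph V) (R : SimpleGraph V),
      Cfg G T R ∧ R.edgeSet.ncard = m₁ ∧ (∀ v, cs R v ≤ ν) ∧ {v | ν ≤ cs R v}.ncard = N)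
    ⟨_, T2, R2, hc2, hm2, hν2, rfl⟩
  obtain ⟨r, hr3⟩ : ∃ r, cs R3 r = ν := by
    by_contra hno
    push Not at hno
    have h1 := hmin2 (ν - 1) ⟨T3, R3, hc3, hm3, fun v => by
      have h2 := hν3 v
      have h3 := hno v
      omega⟩
    omega
  obtain ⟨T, R, u, w, β, L, ⟨hcfg, hme, hcs, hN, hr⟩, hleg, hclosed, hmini⟩ :=
    hLEX V (Fin K) r (fun T R => Cfg G T R ∧ R.edgeSet.ncard = m₁ ∧ (∀ v, cs R v ≤ ν) ∧
      {v | ν ≤ cs R v}.ncard ≤ N₀ ∧ cs R r = ν) ⟨T3, R3, hc3, hm3, hν3, hN3.le, hr3⟩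
  have hred := hRED V (Fin K) G T R r u w β L hcfg (fun T' R' h => by
    rw [hme]
    exact hm T' R' h) hleg
  have hcnt := hCNT V (Fin K) G T R r w L hcfg (fun a ha => (hleg a ha).2.1)
    (fun x hx b y hp => ⟨hclosed x hx b y hp, hred x hx b y hp⟩)
  -- the exchanges are impossible
  have hkey : ∀ (A : Finset ℕ) (b : Fin K) (i : ℕ), A.Nonempty →
      (∀ a ∈ A, a < L ∧ β a = b ∧ R.Reachable (rt r w i) (u a) ∧ cs R (w a) ≤ s) →
      (A.card = 1 ∨ s + 2 ≤ A.card) → ν + A.card ≤ cs R (rt r w i) + 1 + s := by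
    intro A b i hA hAp hcardA
    by_contra hlt
    push Not at hlt
    obtain ⟨T', R', l', hl', hcfg', hle', hleg', hSt', hcs', hlt'⟩ :=
      hMX V (Fin K) G T R r u w β L A b i s hcfg hleg hred hA hAp hcardA
    have hme' : R'.edgeSet.ncard = m₁ := le_antisymm (hme ▸ hle') (hm T' R' hcfg')
    have hcsν : ∀ v, cs R' v ≤ ν := by
      intro v
      have h1 := hcs v
      rcases hcs' v with h | h <;> omega
    have hsub : {v | ν ≤ cs R' v} ⊆ {v | ν ≤ cs R v} := by
      intro v hv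
      simp only [Set.mem_setOf_eq] at hv ⊢
      rcases hcs' v with h | h <;> omega
    rcases Nat.eq_zero_or_pos l' with h0' | hpos
    · subst h0'
      rw [← cs_St, ← cs_St, hr] at hlt'
      have hss : {v | ν ≤ cs R' v} ⊂ {v | ν ≤ cs R v} := by
        refine ⟨hsub, fun hback => ?_⟩
        have h1 : r ∈ {v | ν ≤ cs R v} := hr.ge
        have h2 := hback h1
        simp only [Set.mem_setOf_eq] at h2
        omega
      have h3 := Set.ncard_lt_ncard hss (Set.toFinite _)
      have h4 := hmin3 _ ⟨T', R', hcfg', hme', hcsν, rfl⟩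
      omega
    · have h1 : cs R' r = ν := by
        rw [cs_St R' r w, hSt' 0 hpos, ← cs_St, hr]
      have h2 := hmini T' R' l' ⟨hcfg', hme', hcsν,
        (Set.ncard_le_ncard hsub (Set.toFinite _)).trans hN, h1⟩ hl' hleg' hSt'
      omega
  have hbnd := hBND V (Fin K) R r u w β L s ν (by omega)
    (fun a ha => ⟨(hleg a ha).1, (hleg a ha).2.1⟩)
    (fun a i ha hwa hu => by
      have h1 := hkey {a} (β a) i (Finset.singleton_nonempty a) (by
        intro a' ha'
        rw [Finset.mem_singleton] at ha'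
        subst ha'
        exact ⟨ha, rfl, hu, hwa⟩) (Or.inl (Finset.card_singleton a))
      rw [Finset.card_singleton] at h1
      omega)
    (fun A b i hA => by
      by_contra hgt
      push Not at hgt
      have hne : A.Nonempty := Finset.card_pos.1 (by omega)
      have h1 := hkey A b i hne hA (Or.inr (by omega))
      have h2 := hcs (rt r w i)
      omega)
  -- the arithmetic
  have hU : ν ≤ (St R r w L).ncard := by
    rw [← hr, cs_St R r w]
    refine Set.ncard_le_ncard ?_ (Set.toFinite _)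
    rintro v ⟨c, hc, h⟩
    exact ⟨c, hc.trans (Nat.zero_le _), h⟩
  have hGU := hG (St R r w L) (by omega)
  rw [Fintype.card_fin] at hcnt hbnd
  set n : ℕ := (St R r w L).ncard with hn
  have h1 : ((K * (n - 1) + (n - (L + 1)) : ℕ) : ℝ) ≤ ((K : ℝ) + 1 - ε) * ((n : ℝ) - 1) :=
    le_trans (by exact_mod_cast hcnt) hGU
  have h2 : ((n - 1 : ℕ) : ℝ) = (n : ℝ) - 1 := by
    rw [Nat.cast_sub (by omega)]
    simp
  have h3 : (n : ℝ) - ((L : ℝ) + 1) ≤ ((n - (L + 1) : ℕ) : ℝ) := by
    have : (n : ℝ) ≤ ((n - (L + 1) : ℕ) : ℝ) + ((L + 1 : ℕ) : ℝ) := by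
      exact_mod_cast (by omega : n ≤ n - (L + 1) + (L + 1))
    push_cast at this
    linarith
  have h4 : ε * ((n : ℝ) - 1) ≤ L := by
    push_cast at h1
    rw [h2] at h1
    nlinarith
  have h5 : 4 * (K : ℝ) * ((s : ℝ) + 1) < ε * ((ν : ℝ) - s) := by
    have h6 : 4 * (K : ℝ) * ((s : ℝ) + 1) / ε ≤ (c₀ : ℝ) := by rw [hc₀]; exact Nat.le_ceil _
    rw [div_le_iff₀ hε] at h6
    have h7 : ((s + c₀ + 2 : ℕ) : ℝ) < ν := by exact_mod_cast hνμ
    push_cast at h7
    nlinarith
  exact arith K s ν n L ε hε hs4 h5 (by omega) (by omega) h4 hbnd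


theorem disj_of {V : Type} {A B : SimpleGraph V} (h : ∀ x y, A.Adj x y → ¬ B.Adj x y) :
    Disjoint A B := by
  rw [disjoint_iff_inf_le]
  intro x y hxy
  exact absurd hxy.2 (h x y hxy.1)

/-- From the sizes of the components to a partition into `K + 1` forests. -/
theorem part_of_cfg {V : Type} {K : ℕ} {G : SimpleGraph V} {T : Fin K → SimpleGraph V}
    {R : SimpleGraph V} (h : Cfg G T R) :
    ∃ F : Fin (K + 1) → SimpleGraph V, (∀ i, (F i).IsAcyclic) ∧
      (∀ i j, i ≠ j → Disjoint (F i) (F j)) ∧ (⨆ i, F i) = G ∧ F (Fin.last K) = R := by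
  classical
  obtain ⟨B, hB⟩ : ∃ B : Fin K → SimpleGraph V, ∀ b x y, (B b).Adj x y ↔ (G.Adj x y ∧
      ¬ R.Adj x y ∧ (T b).Adj x y ∧ ∀ c, c < b → ¬ (T c).Adj x y) :=
    ⟨fun b => { Adj := fun x y => G.Adj x y ∧ ¬ R.Adj x y ∧
        (T b).Adj x y ∧ ∀ c, c < b → ¬ (T c).Adj x y
                symm := ⟨fun x y h => ⟨h.1.symm, fun h' => h.2.1 h'.symm, h.2.2.1.symm,
                  fun c hc h' => h.2.2.2 c hc h'.symm⟩⟩
                loopless := ⟨fun x h => G.loopless.irrefl x h.1⟩ }, fun b x y => Iff.rfl⟩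
  obtain ⟨F, hFl, hFc⟩ : ∃ F : Fin (K + 1) → SimpleGraph V, F (Fin.last K) = R ∧
      ∀ b : Fin K, F b.castSucc = B b :=
    ⟨fun i => Fin.lastCases (motive := fun _ => SimpleGraph V) R B i, Fin.lastCases_last,
      fun b => Fin.lastCases_castSucc b⟩
  refine ⟨F, ?_, ?_, ?_, ?_⟩
  · intro i
    refine Fin.lastCases ?_ (fun b => ?_) i
    · rw [hFl]
      exact h.acyc
    · rw [hFc]
      refine (h.tree b).isAcyclic.anti ?_
      intro x y hxy
      exact ((hB b x y).1 hxy).2.2.1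
  · have key : ∀ b c : Fin K, b < c → ∀ x y, (B b).Adj x y → ¬ (B c).Adj x y := by
      intro b c hbc x y h1 h2
      exact ((hB c x y).1 h2).2.2.2 b hbc ((hB b x y).1 h1).2.2.1
    intro i j
    refine Fin.lastCases ?_ (fun b => ?_) i
    · refine Fin.lastCases ?_ (fun c => ?_) j
      · intro h
        exact absurd rfl h
      · intro _
        rw [hFl, hFc]
        refine disj_of ?_
        intro x y h1 h2
        exact ((hB c x y).1 h2).2.1 h1
    · refine Fin.lastCases ?_ (fun c => ?_) j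
      · intro _
        rw [hFl, hFc]
        refine disj_of ?_
        intro x y h1 h2
        exact ((hB b x y).1 h1).2.1 h2
      · intro hne
        rw [hFc, hFc]
        refine disj_of ?_
        intro x y h1 h2
        have hbc : b ≠ c := fun hh => hne (by rw [hh])
        rcases lt_or_gt_of_ne hbc with hlt | hlt
        · exact key b c hlt x y h1 h2
        · exact key c b hlt x y h2 h1
  · ext x y
    rw [SimpleGraph.iSup_adj]
    constructor
    · rintro ⟨i, hi⟩
      revert hi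
      refine Fin.lastCases ?_ (fun b => ?_) i
      · rw [hFl]
        exact fun hh => h.le hh
      · rw [hFc]
        exact fun hh => ((hB b x y).1 hh).1
    · intro hG
      by_cases hR : R.Adj x y
      · refine ⟨Fin.last K, ?_⟩
        rw [hFl]
        exact hR
      · have hex : ∃ b, (T b).Adj x y := (h.cov x y hG).resolve_left hR
        obtain ⟨b, hb, hmin⟩ : ∃ b, (T b).Adj x y ∧ ∀ c, c < b → ¬ (T c).Adj x y := by
          obtain ⟨b, hb, hbm⟩ := WellFounded.has_min (wellFounded_lt (α := Fin K))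
            {b | (T b).Adj x y} hex
          exact ⟨b, hb, fun c hc hcc => hbm c hcc hc⟩
        refine ⟨b.castSucc, ?_⟩
        rw [hFc]
        exact (hB b x y).2 ⟨hG, hR, hb, hmin⟩
  · rw [hFl]

/-- A component of a forest has one edge less than vertices. -/
theorem edges_comp {V : Type} [Fintype V] {R : SimpleGraph V} (hR : R.IsAcyclic) (v : V) :
    {e | e ∈ R.edgeSet ∧ ∀ x ∈ e, R.Reachable v x}.ncard + 1 = cs R v := by
  classical
  obtain ⟨S, hS0⟩ : ∃ S : Set V, S = {x | R.Reachable v x} := ⟨_, rfl⟩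
  have hmem : ∀ x, x ∈ S ↔ R.Reachable v x := fun x => by rw [hS0]; exact Iff.rfl
  have hS : S = (R.connectedComponentMk v).supp := by
    rw [hS0]
    ext x
    rw [ConnectedComponent.mem_supp_iff, ConnectedComponent.eq, Set.mem_ofPred_eq]
    exact ⟨fun h => h.symm, fun h => h.symm⟩
  have hconn : (R.induce S).Connected := by
    rw [hS]
    exact (R.connectedComponentMk v).connected_toSimpleGraph
  have hac : (R.induce S).IsAcyclic := hR.induce S
  have htree : (R.induce S).IsTree := ⟨hconn, hac⟩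
  have h1 := htree.card_edgeFinset
  have h2 : {e | e ∈ R.edgeSet ∧ ∀ x ∈ e, R.Reachable v x} =
      Sym2.map Subtype.val '' (R.induce S).edgeSet := by
    ext e
    induction e using Sym2.ind with
    | _ x y =>
      constructor
      · rintro ⟨h, hx⟩
        have hxS : x ∈ S := (hmem x).2 (hx x (Sym2.mem_mk_left x y))
        have hyS : y ∈ S := (hmem y).2 (hx y (Sym2.mem_mk_right x y))
        exact ⟨s(⟨x, hxS⟩, ⟨y, hyS⟩), h, rfl⟩
      · rintro ⟨f, hf, hfe⟩
        induction f using Sym2.ind with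
        | _ a b =>
          rw [Sym2.map_mk] at hfe
          have hadj : R.Adj a.1 b.1 := hf
          rw [← hfe]
          refine ⟨hadj, ?_⟩
          intro z hz
          have ha : R.Reachable v a.1 := (hmem a.1).1 a.2
          rw [Sym2.mem_iff] at hz
          rcases hz with rfl | rfl
          · exact ha
          · exact ha.trans hadj.reachable
  rw [h2, Set.ncard_image_of_injective _ (Sym2.map.injective Subtype.val_injective)]
  rw [← coe_edgeFinset, Set.ncard_coe_finset, h1, cs, ← hS0, ← Nat.card_coe_set_eq,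
    Nat.card_eq_fintype_card]

end Pool.Agent.Run7.h970.ND
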