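import Pool.Agent.Run7.h970.ND.Chn

set_option autoImplicit false

namespace Pool.Agent.Run7.h970.ND

open SimpleGraph

variable {V : Type}

theorem t_RED : S_RED := by
  classical
  intro V _ ι _ G T R r u w β L hC hmin hL x hx b y hpar
  by_contra hcon
  have hT := hC.tree b
  set F : ι → SimpleGraph V := fun c => if c = b then (T b).deleteEdges {s(x, y)} else T c
    with hF
  have hFb : F b = (T b).deleteEdges {s(x, y)} := by simp [hF]
  have hFc : ∀ c, c ≠ b → F c = T c := by
    intro c h
    simp [hF, h]
  set D : Set V := {v | ¬ ((T b).deleteEdges {s(x, y)}).Reachable v r} with hD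
  have hxD : x ∈ D := par_not hT.isAcyclic hpar
  obtain ⟨l, hl, hP, hm⟩ := first_index (P := fun c => ∃ v ∈ D, v ∈ St R r w c)
    (n := L) ⟨x, hxD, hx⟩
  have hLeg : Leg F R r u w β l := by
    intro a ha
    obtain ⟨h1, h2, h3⟩ := hL a (by omega)
    refine ⟨h1, h2, ?_⟩
    by_cases hb : β a = b
    · rw [hb, hFb]
      refine leg_delete (b := b) hT (leg_mono hl hL) hm a ha ?_ hb
      intro e
      rcases Sym2.eq_iff.1 e with ⟨e1, -⟩ | ⟨e1, e2⟩
      · exact hm a ha ⟨u a, e1 ▸ hxD, h1⟩
      · rw [hb, e1, e2] at h3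
        exact par_asymm hT.isAcyclic hpar h3
    · rw [hFc _ hb]
      exact h3
  obtain ⟨F', e, l', v', -, h2, h3, h4, -, -, -⟩ := t_CHN V ι R r u w β l F b D hC.acyc
    (fun c hc => by rw [hFc c hc]; exact hC.tree c) (by rw [hFb]; exact hole_of_tree hT hpar)
    hLeg (fun a' ha' v' hv' hs => hm a' ha' ⟨v', hv', hs⟩) (st_first hP hm)
  have hR : ∀ x' y', R.Adj x' y' → (R.deleteEdges {e}).Adj x' y' ∨ ∃ c, (F' c).Adj x' y' := by
    intro x' y' h
    by_cases he : s(x', y') = e
    · exact Or.inr ((h3 x' y').2 (Or.inr he))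
    · left
      rw [deleteEdges_adj]
      exact ⟨h, by simpa using he⟩
  have hcfg : Cfg G F' (R.deleteEdges {e}) := by
    refine ⟨h2, IsAcyclic.anti (deleteEdges_le _) hC.acyc, (deleteEdges_le _).trans hC.le, ?_⟩
    intro x' y' hG
    rcases hC.cov x' y' hG with h | ⟨c, h⟩
    · exact hR x' y' h
    · by_cases hc : c = b
      · subst hc
        by_cases he : s(x', y') = s(x, y)
        · have hG' : G.Adj x y := by
            rcases Sym2.eq_iff.1 he with ⟨e1, e2⟩ | ⟨e1, e2⟩
            · rwa [e1, e2] at hG
            · rw [e1, e2] at hG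
              exact hG.symm
          have hor : R.Adj x y ∨ ∃ c', c' ≠ c ∧ (T c').Adj x y := by
            by_contra hh
            push Not at hh
            exact hcon ⟨hG', hh.1, hh.2⟩
          rcases hor with h' | ⟨c', hc', h'⟩
          · have : R.Adj x' y' := by
              rcases Sym2.eq_iff.1 he with ⟨e1, e2⟩ | ⟨e1, e2⟩
              · rw [e1, e2]; exact h'
              · rw [e1, e2]; exact h'.symm
            exact hR x' y' this
          · right
            rw [h3]
            left
            refine ⟨c', ?_⟩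
            rw [hFc c' hc']
            rcases Sym2.eq_iff.1 he with ⟨e1, e2⟩ | ⟨e1, e2⟩
            · rw [e1, e2]; exact h'
            · rw [e1, e2]; exact h'.symm
        · right
          rw [h3]
          left
          refine ⟨c, ?_⟩
          rw [hFb, deleteEdges_adj]
          exact ⟨h, by simpa using he⟩
      · right
        rw [h3]
        left
        exact ⟨c, by rw [hFc c hc]; exact h⟩
  have h5 := hmin F' _ hcfg
  rw [edgeSet_deleteEdges] at h5
  have h6 := Set.ncard_diff_singleton_lt_of_mem h4 (Set.toFinite _)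
  omega

end Pool.Agent.Run7.h970.ND
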