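import Pool.Agent.Run7.h970.ND.Mx
import Pool.Agent.Run7.h970.ND.Red
import Pool.Agent.Run7.h688.ND.CNT
import Pool.Agent.Run7.h688.ND.FIN
import Pool.Agent.Run7.h24.ND.LEX
import Pool.Agent.Run7.h24.ND.JOIN
import Pool.Agent.Run7.h799.ND.BND
import Pool.Agent.Run7.h799.ND.NW
import Pool.Agent.Run7.h141.ND.END
import Pool.Agent.Run7.h680.ND.SEP

set_option autoImplicit false

namespace Pool.Agent.Run7.h970.ND

/-- A qualitative strong nine dragon tree theorem. -/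
theorem t_MAIN : S_MAIN :=
  Pool.Agent.Run7.h141.ND.t_END Pool.Agent.Run7.h799.ND.t_NW Pool.Agent.Run7.h688.ND.t_CNT
    Pool.Agent.Run7.h24.ND.t_LEX
    (t_MX Pool.Agent.Run7.h680.ND.t_SEP Pool.Agent.Run7.h24.ND.t_JOIN) t_RED
    Pool.Agent.Run7.h799.ND.t_BND

theorem t_GOAL : S_GOAL := Pool.Agent.Run7.h688.ND.t_FIN t_MAIN

end Pool.Agent.Run7.h970.ND
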