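import Pool.Agent.Run7.h970.ND.Stm

set_option autoImplicit false

namespace Pool.Agent.Run7.h970.ND

open SimpleGraph

variable {V : Type}

theorem par_not {T : SimpleGraph V} {r x y : V} (hT : T.IsAcyclic) (h : Par T r x y) :
    ¬ (T.deleteEdges {s(x, y)}).Reachable x r := by
  intro h1
  have h2 := (isAcyclic_iff_forall_adj_isBridge.1 hT) h.1
  rw [isBridge_iff] at h2
  exact h2 (h1.trans h.2.symm)

theorem par_exists {T : SimpleGraph V} {r x : V} (h : T.Reachable x r) (hx : x ≠ r) :
    ∃ y, Par T r x y := by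
  obtain ⟨p, hp⟩ := h.exists_isPath
  cases p with
  | nil => exact absurd rfl hx
  | @cons _ y _ hadj q =>
    refine ⟨y, hadj, ?_⟩
    rw [Walk.cons_isPath_iff] at hp
    refine ⟨q.toDeleteEdges {s(x, y)} ?_⟩
    intro e he he2
    rw [Set.mem_singleton_iff] at he2
    subst he2
    exact hp.2 (q.fst_mem_support_of_mem_edges he)

theorem par_path {T : SimpleGraph V} {r x y : V} (hT : T.IsAcyclic) (h : Par T r x y) :
    ∃ q : T.Walk y r, (Walk.cons h.1 q).IsPath := by
  obtain ⟨p, hp⟩ := h.2.exists_isPath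
  refine ⟨p.mapLe (deleteEdges_le _), ?_⟩
  rw [Walk.cons_isPath_iff]
  refine ⟨hp.mapLe _, ?_⟩
  intro hx
  have h1 : x ∈ p.support := by
    simpa using hx
  classical
  exact par_not hT h (p.dropUntil x h1).reachable

theorem par_unique {T : SimpleGraph V} {r x y z : V} (hT : T.IsAcyclic) (h : Par T r x y)
    (h' : Par T r x z) : y = z := by
  obtain ⟨p, hp⟩ := par_path hT h
  obtain ⟨q, hq⟩ := par_path hT h'
  have h1 := (hT.subsingleton_path x r).elim ⟨_, hp⟩ ⟨_, hq⟩
  have h2 : Walk.cons h.1 p = Walk.cons h'.1 q := congrArg Subtype.val h1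
  have h3 : (Walk.cons h.1 p).snd = (Walk.cons h'.1 q).snd := by rw [h2]
  simpa using h3

theorem par_mono {T T' : SimpleGraph V} {r x y : V} (hle : T ≤ T') (h : Par T r x y) :
    Par T' r x y :=
  ⟨hle h.1, h.2.mono (deleteEdges_mono hle)⟩

theorem par_ne {T : SimpleGraph V} {r x y : V} (hT : T.IsAcyclic) (h : Par T r x y) : x ≠ r := by
  intro e
  exact par_not hT h (e ▸ Reachable.refl _)

theorem par_asymm {T : SimpleGraph V} {r x y : V} (hT : T.IsAcyclic) (h : Par T r x y)
    (h' : Par T r y x) : False := by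
  have h1 := h'.2
  rw [Sym2.eq_swap] at h1
  exact par_not hT h h1

theorem par_restr {T T' : SimpleGraph V} {r x y : V} (hT : T.IsAcyclic) (hle : T' ≤ T)
    (hadj : T'.Adj x y) (hr : T'.Reachable x r) (h : Par T r x y) : Par T' r x y := by
  obtain ⟨z, hz⟩ := par_exists hr (par_ne hT h)
  have := par_unique hT h (par_mono hle hz)
  subst this
  exact hz

theorem reach_two {T : SimpleGraph V} {x y v : V} (h : T.Reachable v x) :
    (T.deleteEdges {s(x, y)}).Reachable v x ∨ (T.deleteEdges {s(x, y)}).Reachable v y := by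
  obtain ⟨p⟩ := h
  induction p with
  | nil => exact Or.inl (Reachable.refl _)
  | @cons a b c hab q ih =>
    by_cases he : s(a, b) = s(c, y)
    · rcases Sym2.eq_iff.1 he with ⟨e1, -⟩ | ⟨e1, -⟩
      · exact Or.inl (e1 ▸ Reachable.refl _)
      · exact Or.inr (e1 ▸ Reachable.refl _)
    · have h1 : (T.deleteEdges {s(c, y)}).Adj a b := by
        rw [deleteEdges_adj]
        exact ⟨hab, by simpa using he⟩
      rcases ih with h2 | h2
      · exact Or.inl (h1.reachable.trans h2)
      · exact Or.inr (h1.reachable.trans h2)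

theorem hole_of_tree {T : SimpleGraph V} {r x y : V} (hT : T.IsTree) (h : Par T r x y) :
    Hole (T.deleteEdges {s(x, y)}) r {v | ¬ (T.deleteEdges {s(x, y)}).Reachable v r} := by
  set F := T.deleteEdges {s(x, y)} with hF
  refine ⟨fun h1 => h1 (Reachable.refl _), ?_, ?_⟩
  · intro a b hab
    simp only [Set.mem_ofPred_eq, not_iff_not]
    exact ⟨fun h1 => hab.symm.reachable.trans h1, fun h1 => hab.reachable.trans h1⟩
  · intro a b ha hb
    have ha' : F.Reachable a r := by
      by_contra hh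
      exact ha hh
    have hb' : ¬ F.Reachable b r := hb
    have hFa : F.IsAcyclic := IsAcyclic.anti (deleteEdges_le _) hT.isAcyclic
    have hbx : F.Reachable b x := by
      rcases reach_two (y := y) (hT.connected.preconnected b x) with h1 | h1
      · exact h1
      · exact absurd (h1.trans h.2) hb'
    have hnab : ¬ F.Reachable a b := fun h1 => hb' (h1.symm.trans ha')
    refine ⟨?_, IsAcyclic.sup_edge_of_not_reachable hnab hFa⟩
    have hne : a ≠ b := fun e => hnab (e ▸ Reachable.refl _)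
    have hadj : (F ⊔ edge a b).Adj a b := by
      rw [sup_adj, edge_adj]
      exact Or.inr ⟨Or.inl ⟨rfl, rfl⟩, hne⟩
    have hall : ∀ v, (F ⊔ edge a b).Reachable v r := by
      intro v
      rcases reach_two (y := y) (hT.connected.preconnected v x) with h1 | h1
      · have h2 : (F ⊔ edge a b).Reachable v b := (h1.trans hbx.symm).mono le_sup_left
        exact h2.trans (hadj.symm.reachable.trans (ha'.mono le_sup_left))
      · exact (h1.trans h.2).mono le_sup_left
    have : Nonempty V := ⟨r⟩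
    exact ⟨fun v z => (hall v).trans (hall z).symm⟩

theorem cross {R : SimpleGraph V} {p v : V} {D : Set V} (hR : R.IsAcyclic)
    (h : R.Reachable p v) (hp : p ∉ D) (hv : v ∈ D) :
    ∃ z' z, R.Adj z' z ∧ z' ∉ D ∧ z ∈ D ∧ R.Reachable p z' ∧
      ¬ (R.deleteEdges {s(z', z)}).Reachable p v := by
  obtain ⟨q, hq⟩ := h.exists_isPath
  obtain ⟨d, hd, hd1, hd2⟩ := q.exists_boundary_dart Dᶜ hp (by simpa using hv)
  refine ⟨d.fst, d.snd, d.adj, hd1, by simpa using hd2, ?_, ?_⟩
  · classical
    exact (q.takeUntil d.fst (q.dart_fst_mem_support_of_mem_darts hd)).reachable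
  · intro h1
    obtain ⟨q', hq'⟩ := h1.exists_isPath
    have h2 := (hR.subsingleton_path p v).elim ⟨q, hq⟩
      ⟨q'.mapLe (deleteEdges_le _), hq'.mapLe _⟩
    have h3 : q = q'.mapLe (deleteEdges_le _) := congrArg Subtype.val h2
    have h4 : s(d.fst, d.snd) ∈ q.edges := by
      have : d.edge ∈ q.edges := List.mem_map_of_mem hd
      simpa [Dart.edge] using this
    rw [h3] at h4
    have h5 : s(d.fst, d.snd) ∈ q'.edges := by simpa using h4
    have h6 := q'.edges_subset_edgeSet h5
    rw [edgeSet_deleteEdges] at h6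
    exact h6.2 rfl

theorem st_mono {R : SimpleGraph V} {r : V} {w : ℕ → V} {a c : ℕ} (h : a ≤ c) :
    St R r w a ⊆ St R r w c := by
  rintro v ⟨d, hd, hv⟩
  exact ⟨d, hd.trans h, hv⟩

theorem st_closed {R : SimpleGraph V} {r : V} {w : ℕ → V} {a : ℕ} {x y : V}
    (hx : x ∈ St R r w a) (h : R.Reachable x y) : y ∈ St R r w a := by
  obtain ⟨d, hd, hv⟩ := hx
  exact ⟨d, hd, hv.trans h⟩

theorem rt_mem {R : SimpleGraph V} {r : V} {w : ℕ → V} {a c : ℕ} (h : a ≤ c) :
    rt r w a ∈ St R r w c := ⟨a, h, Reachable.refl _⟩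

theorem w_mem {R : SimpleGraph V} {r : V} {w : ℕ → V} {a c : ℕ} (h : a < c) :
    w a ∈ St R r w c := ⟨a + 1, h, Reachable.refl _⟩

theorem leg_mono {ι : Type} {F : ι → SimpleGraph V} {R : SimpleGraph V} {r : V} {u w : ℕ → V}
    {β : ℕ → ι} {l l' : ℕ} (h : l' ≤ l) (hL : Leg F R r u w β l) : Leg F R r u w β l' :=
  fun a ha => hL a (ha.trans_le h)

theorem first_index {P : ℕ → Prop} {n : ℕ} (h : P n) :
    ∃ l, l ≤ n ∧ P l ∧ ∀ a, a < l → ¬ P a := by
  classical
  exact ⟨Nat.find ⟨n, h⟩, Nat.find_min' _ h, Nat.find_spec ⟨n, h⟩, fun a ha => Nat.find_min _ ha⟩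

end Pool.Agent.Run7.h970.ND
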