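import Pool.Agent.Run7.h970.ND.Bas

set_option autoImplicit false

namespace Pool.Agent.Run7.h970.ND

open SimpleGraph

variable {V : Type}

theorem st_first {R : SimpleGraph V} {r : V} {w : ℕ → V} {D : Set V} {l : ℕ}
    (h : ∃ v ∈ D, v ∈ St R r w l) (hm : ∀ a, a < l → ¬ ∃ v ∈ D, v ∈ St R r w a) :
    ∃ v ∈ D, R.Reachable (rt r w l) v := by
  obtain ⟨v, hv, c, hc, hr⟩ := h
  rcases Nat.lt_or_ge c l with h1 | h1
  · exact absurd ⟨v, hv, c, le_refl _, hr⟩ (hm c h1)
  · have : c = l := le_antisymm hc h1
    exact ⟨v, hv, this ▸ hr⟩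

/-- legal sequences survive the deletion of an edge of one tree, before they meet the cut side -/
theorem leg_delete {ι : Type} {R : SimpleGraph V} {r : V} {u w : ℕ → V} {β : ℕ → ι}
    {l : ℕ} {F : ι → SimpleGraph V} {b : ι} {x y : V} (hT : (F b).IsTree)
    (hL : Leg F R r u w β l)
    (hm : ∀ a, a < l → ¬ ∃ v ∈ {v | ¬ ((F b).deleteEdges {s(x, y)}).Reachable v r},
      v ∈ St R r w a)
    (a : ℕ) (ha : a < l) (hne : s(u a, w a) ≠ s(x, y)) (hb : β a = b) :
    Par ((F b).deleteEdges {s(x, y)}) r (u a) (w a) := by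
  obtain ⟨h1, h2, h3⟩ := hL a ha
  rw [hb] at h3
  refine par_restr hT.isAcyclic (deleteEdges_le _) ?_ ?_ h3
  · rw [deleteEdges_adj]
    exact ⟨h3.1, by simpa using hne⟩
  · by_contra hh
    exact hm a ha ⟨u a, hh, h1⟩

theorem t_CHN : S_CHN := by
  intro V _ ι _ R r u w β l
  induction l using Nat.strong_induction_on with
  | _ l ih =>
  intro F b D hR hF hH hL hD hv
  obtain ⟨v, hvD, hv⟩ := hv
  by_cases hrt : rt r w l ∈ D
  · cases l with
    | zero => exact absurd hrt hH.1
    | succ a =>
    have hwD : w a ∈ D := hrt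
    obtain ⟨hu, hw, hpar⟩ := hL a (Nat.lt_succ_self a)
    have huD : u a ∉ D := fun h => hD a (Nat.lt_succ_self a) _ h hu
    have hb1 : β a ≠ b := by
      intro e
      rw [e] at hpar
      exact huD ((hH.2.1 _ _ hpar.1).2 hwD)
    have hT1 := hF (β a) hb1
    set F1 : ι → SimpleGraph V := fun c => if c = β a then
      (F (β a)).deleteEdges {s(u a, w a)} else if c = b then F b ⊔ edge (u a) (w a) else F c
      with hF1
    set D1 : Set V := {v | ¬ ((F (β a)).deleteEdges {s(u a, w a)}).Reachable v r} with hD1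
    have hu1 : u a ∈ D1 := par_not hT1.isAcyclic hpar
    obtain ⟨l1, hl1, hP1, hm1⟩ := first_index (P := fun c => ∃ v ∈ D1, v ∈ St R r w c)
      (n := a) ⟨u a, hu1, hu⟩
    have hF1a : F1 (β a) = (F (β a)).deleteEdges {s(u a, w a)} := by simp [hF1]
    have hF1b : F1 b = F b ⊔ edge (u a) (w a) := by
      simp [hF1, Ne.symm hb1]
    have hF1c : ∀ c, c ≠ β a → c ≠ b → F1 c = F c := by
      intro c h1 h2
      simp only [hF1]
      rw [if_neg h1, if_neg h2]
    have hne : ∀ a', a' < l1 → s(u a', w a') ≠ s(u a, w a) := by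
      intro a' ha' e
      obtain ⟨h1, -, -⟩ := hL a' (by omega)
      have h2 : w a ∈ St R r w a := by
        rcases Sym2.eq_iff.1 e with ⟨-, e1⟩ | ⟨e1, -⟩
        · rw [← e1]
          exact w_mem (by omega)
        · rw [← e1]
          exact st_mono (by omega) h1
      exact hw h2
    have hLeg : Leg F1 R r u w β l1 := by
      intro a' ha'
      obtain ⟨h1, h2, h3⟩ := hL a' (by omega)
      refine ⟨h1, h2, ?_⟩
      by_cases hb' : β a' = β a
      · rw [hb', hF1a]
        exact leg_delete (b := β a) hT1 (leg_mono (by omega) hL) hm1 a' ha' (hne a' ha') hb'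
      · by_cases hb'' : β a' = b
        · rw [hb'', hF1b]
          rw [hb''] at h3
          exact par_mono le_sup_left h3
        · rw [hF1c _ hb' hb'']
          exact h3
    have hadj : ∀ x y, (∃ c, (F1 c).Adj x y) ↔ ∃ c, (F c).Adj x y := by
      intro x y
      constructor
      · rintro ⟨c, hc⟩
        by_cases h1 : c = β a
        · subst h1
          rw [hF1a] at hc
          exact ⟨_, deleteEdges_le _ hc⟩
        · by_cases h2 : c = b
          · subst h2
            rw [hF1b, sup_adj, edge_adj] at hc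
            rcases hc with hc | ⟨⟨rfl, rfl⟩ | ⟨rfl, rfl⟩, -⟩
            · exact ⟨_, hc⟩
            · exact ⟨_, hpar.1⟩
            · exact ⟨_, hpar.1.symm⟩
          · rw [hF1c _ h1 h2] at hc
            exact ⟨_, hc⟩
      · rintro ⟨c, hc⟩
        by_cases he : s(x, y) = s(u a, w a)
        · refine ⟨b, ?_⟩
          rw [hF1b, sup_adj, edge_adj]
          right
          refine ⟨?_, hc.ne⟩
          rcases Sym2.eq_iff.1 he with ⟨e1, e2⟩ | ⟨e1, e2⟩
          · exact Or.inl ⟨e1, e2⟩
          · exact Or.inr ⟨e1, e2⟩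
        · by_cases h1 : c = β a
          · subst h1
            refine ⟨β a, ?_⟩
            rw [hF1a, deleteEdges_adj]
            exact ⟨hc, by simpa using he⟩
          · by_cases h2 : c = b
            · subst h2
              refine ⟨c, ?_⟩
              rw [hF1b]
              exact Or.inl hc
            · refine ⟨c, ?_⟩
              rw [hF1c _ h1 h2]
              exact hc
    obtain ⟨F', e, l', v', h1, h2, h3, h4, h5, h6, h7⟩ := ih l1 (by omega) F1 (β a) D1 hR
      (by
        intro c hc
        by_cases h2 : c = b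
        · subst h2
          rw [hF1b]
          exact hH.2.2 _ _ huD hwD
        · rw [hF1c _ hc h2]
          exact hF c h2)
      (by
        rw [hF1a]
        exact hole_of_tree hT1 hpar)
      hLeg (fun a' ha' v' hv' hs => hm1 a' ha' ⟨v', hv', hs⟩) (st_first hP1 hm1)
    refine ⟨F', e, l', v', by omega, h2, ?_, h4, h5, h6, h7⟩
    intro x y
    rw [h3, hadj]
  · obtain ⟨z', z, hadj, hz', hz, hpz, hcut⟩ := cross hR hv hrt hvD
    set F1 : ι → SimpleGraph V := fun c => if c = b then F b ⊔ edge z' z else F c with hF1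
    have hF1b : F1 b = F b ⊔ edge z' z := by simp [hF1]
    have hF1c : ∀ c, c ≠ b → F1 c = F c := by
      intro c h1
      simp only [hF1]
      rw [if_neg h1]
    refine ⟨F1, s(z', z), l, v, le_refl _, ?_, ?_, hadj, ?_, hv, hcut⟩
    · intro c
      by_cases h : c = b
      · subst h
        rw [hF1b]
        exact hH.2.2 _ _ hz' hz
      · rw [hF1c _ h]
        exact hF c h
    · intro x y
      constructor
      · rintro ⟨c, hc⟩
        by_cases h : c = b
        · subst h
          rw [hF1b, sup_adj, edge_adj] at hc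
          rcases hc with hc | ⟨⟨rfl, rfl⟩ | ⟨rfl, rfl⟩, -⟩
          · exact Or.inl ⟨_, hc⟩
          · exact Or.inr rfl
          · exact Or.inr Sym2.eq_swap
        · rw [hF1c _ h] at hc
          exact Or.inl ⟨_, hc⟩
      · rintro (⟨c, hc⟩ | he)
        · by_cases h : c = b
          · subst h
            refine ⟨c, ?_⟩
            rw [hF1b]
            exact Or.inl hc
          · refine ⟨c, ?_⟩
            rw [hF1c _ h]
            exact hc
        · refine ⟨b, ?_⟩
          rw [hF1b, sup_adj, edge_adj]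
          right
          rcases Sym2.eq_iff.1 he with ⟨e1, e2⟩ | ⟨e1, e2⟩
          · refine ⟨Or.inl ⟨e1, e2⟩, ?_⟩
            rw [e1, e2]
            exact hadj.ne
          · refine ⟨Or.inr ⟨e1, e2⟩, ?_⟩
            rw [e1, e2]
            exact hadj.ne.symm
    · intro a ha
      obtain ⟨h1, h2, h3⟩ := hL a ha
      refine ⟨h1, h2, ?_⟩
      by_cases h : β a = b
      · rw [h, hF1b]
        rw [h] at h3
        exact par_mono le_sup_left h3
      · rw [hF1c _ h]
        exact h3

end Pool.Agent.Run7.h970.ND
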