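import Pool.Agent.Run7.h970.ND.Mx2

/-!
# The exchange for every `A` (second stage, MP_a0ac48_co)
-/

set_option autoImplicit false

namespace Pool.Agent.Run7.h970.ND

open SimpleGraph

variable {V : Type}

theorem t_MX2 (hSEP : S_SEP) (hSEP2 : S_SEP2) (hJOIN : S_JOIN) : S_MX2 := by
  classical
  intro V _ ι _ G T R r u w β L A b i hC hL hred hne hA
  obtain ⟨a0, ha0⟩ := hne
  obtain ⟨c0, hc0, hc0r⟩ := (hL a0 (hA a0 ha0).1).1
  obtain ⟨i0, -, hi0, hmin⟩ := first_index (P := fun c => R.Reachable (rt r w c) (u a0)) hc0r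
  have hri : R.Reachable (rt r w i) (rt r w i0) := (hA a0 ha0).2.2.trans hi0.symm
  have hA' : ∀ a ∈ A, a < L ∧ β a = b ∧ R.Reachable (rt r w i0) (u a) :=
    fun a ha => ⟨(hA a ha).1, (hA a ha).2.1, hri.symm.trans (hA a ha).2.2⟩
  have hiA : ∀ a ∈ A, i0 ≤ a := by
    intro a ha
    obtain ⟨c, hc, h⟩ := (hL a (hA a ha).1).1
    by_contra hh
    exact hmin c (by omega) (h.trans ((hA' a ha).2.2.symm.trans hi0))
  have hT := hC.tree b
  have hparA : ∀ a ∈ A, Par (T b) r (u a) (w a) := by
    intro a ha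
    have := (hL a (hA a ha).1).2.2
    rwa [(hA a ha).2.1] at this
  have hwinj : ∀ a ∈ A, ∀ c ∈ A, a ≠ c → w a ≠ w c := by
    intro a ha c hc hac h
    rcases Nat.lt_or_gt_of_ne hac with h1 | h1
    · exact (hL c (hA c hc).1).2.1 (h ▸ w_mem h1)
    · exact (hL a (hA a ha).1).2.1 (h ▸ w_mem h1)
  have huw : ∀ a ∈ A, ∀ c ∈ A, u a = u c → w a = w c := by
    intro a ha c hc h
    have h1 := hparA a ha
    rw [h] at h1
    exact par_unique hT.isAcyclic h1 (hparA c hc)
  have huinj : ∀ a ∈ A, ∀ c ∈ A, a ≠ c → u a ≠ u c :=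
    fun a ha c hc hac h => hwinj a ha c hc hac (huw a ha c hc h)
  -- the set X
  set X : Finset V := A.image u with hX
  let yy : V → V := fun x => if h : ∃ a ∈ A, u a = x then w h.choose else x
  have hyy : ∀ a ∈ A, yy (u a) = w a := by
    intro a ha
    have h : ∃ a' ∈ A, u a' = u a := ⟨a, ha, rfl⟩
    have h1 : yy (u a) = w h.choose := dif_pos h
    rw [h1]
    exact huw _ h.choose_spec.1 a ha h.choose_spec.2
  have hXcard : X.card = A.card := by
    rw [hX, Finset.card_image_of_injOn]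
    intro a ha c hc h
    by_contra hac
    exact huinj a ha c hc hac h
  have hXpar : ∀ x ∈ X, Par (T b) r x (yy x) := by
    intro x hx
    rw [hX, Finset.mem_image] at hx
    obtain ⟨a, ha, rfl⟩ := hx
    rw [hyy a ha]
    exact hparA a ha
  have hrem : ∀ e : Sym2 V, (∃ x ∈ X, e = s(x, yy x)) ↔ ∃ a ∈ A, e = s(u a, w a) := by
    intro e
    constructor
    · rintro ⟨x, hx, h⟩
      rw [hX, Finset.mem_image] at hx
      obtain ⟨a, ha, rfl⟩ := hx
      rw [hyy a ha] at h
      exact ⟨a, ha, h⟩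
    · rintro ⟨a, ha, h⟩
      refine ⟨u a, Finset.mem_image_of_mem u ha, ?_⟩
      rw [hyy a ha]
      exact h
  set P : SimpleGraph V := (T b).deleteEdges {e | ∃ x ∈ X, e = s(x, yy x)} with hP
  have hPT : P ≤ T b := deleteEdges_le _
  have hPadj : ∀ x y, P.Adj x y ↔ (T b).Adj x y ∧ ¬ ∃ a ∈ A, s(x, y) = s(u a, w a) := by
    intro x y
    rw [hP, deleteEdges_adj]
    exact and_congr_right fun _ => not_congr (hrem _)
  set D : Set V := {v | ¬ P.Reachable v r} with hD
  have huD : ∀ a ∈ A, u a ∈ D := by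
    intro a ha h
    refine par_not hT.isAcyclic (hparA a ha) (h.mono ?_)
    rw [hP]
    refine deleteEdges_anti ?_
    intro e he
    rw [Set.mem_singleton_iff] at he
    exact (hrem e).2 ⟨a, ha, he⟩
  have hrD : r ∉ D := fun h => h (Reachable.refl _)
  obtain ⟨l, hl, hPl, hm⟩ := first_index (P := fun c => ∃ v ∈ D, v ∈ St R r w c)
    (n := i0) ⟨u a0, huD a0 ha0, i0, le_refl _, hi0⟩
  have hi0L : i0 < L := (hiA a0 ha0).trans_lt (hA a0 ha0).1
  have hPD : ∀ x y, P.Adj x y → (x ∈ D ↔ y ∈ D) := by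
    intro x y hxy
    simp only [hD, Set.mem_ofPred_eq, not_iff_not]
    exact ⟨fun h1 => hxy.symm.reachable.trans h1, fun h1 => hxy.reachable.trans h1⟩
  -- edges of the sequence before l are in P
  have hnotrem : ∀ a, a < l → β a = b → ¬ ∃ c ∈ A, s(u a, w a) = s(u c, w c) := by
    rintro a ha hb ⟨c, hc, he⟩
    obtain ⟨h1, -, h3⟩ := hL a (by omega)
    rcases Sym2.eq_iff.1 he with ⟨e1, -⟩ | ⟨e1, e2⟩
    · exact hm a ha ⟨u a, e1 ▸ huD c hc, h1⟩
    · rw [hb, e1, e2] at h3
      exact par_asymm hT.isAcyclic (hparA c hc) h3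
  have hPpar : ∀ a, a < l → β a = b → Par P r (u a) (w a) := by
    intro a ha hb
    obtain ⟨h1, -, h3⟩ := hL a (by omega)
    rw [hb] at h3
    refine par_restr hT.isAcyclic hPT ((hPadj _ _).2 ⟨h3.1, hnotrem a ha hb⟩) ?_ h3
    by_contra hh
    exact hm a ha ⟨u a, hh, h1⟩
  -- the separating edges
  have key : ∀ z' z, z' ∉ D → z ∈ D → ∃ Y : Finset (Sym2 V), (Y : Set (Sym2 V)) ⊆ R.edgeSet ∧
      Y.card + 1 = A.card ∧ (∀ e ∈ Y, ∀ q ∈ e, R.Reachable (rt r w i0) q) ∧
      (∀ a ∈ A, ∀ c ∈ A, a ≠ c →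
        ¬ (R.deleteEdges (Y : Set (Sym2 V))).Reachable (u a) (u c)) ∧
      ((P ⊔ fromEdgeSet (Y : Set (Sym2 V))) ⊔ edge z' z).IsTree ∧ s(z', z) ∉ Y := by
    intro z' z hz' hz
    obtain ⟨x1, hx1, hzx⟩ : ∃ x ∈ X, P.Reachable z x := by
      rcases reach_X hT hXpar z with h | h
      · exact absurd h hz
      · exact h
    have hx1r : R.Reachable (rt r w i0) x1 := by
      rw [hX, Finset.mem_image] at hx1
      obtain ⟨a, ha, rfl⟩ := hx1
      exact (hA' a ha).2.2
    obtain ⟨Y, D', h1, h2, h3, h4, h5, h6⟩ := hSEP V (T b) R r x1 X yy hT hC.acyc hx1 hXpar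
      (by
        intro x hx
        rw [hX, Finset.mem_image] at hx
        obtain ⟨a, ha, rfl⟩ := hx
        exact hx1r.symm.trans (hA' a ha).2.2)
    rw [← hP] at h6
    have hzD' : z ∈ D' := (hole_reach h6 (hzx.mono le_sup_left)).2 h5
    have hz'D' : z' ∉ D' := by
      intro h
      have h7 : P.Reachable z' r := by
        by_contra hh
        exact hz' hh
      exact h6.1 ((hole_reach h6 (h7.mono le_sup_left)).1 h)
    refine ⟨Y, h1, by omega, fun e he q hq => hx1r.trans (h3 e he q hq), ?_,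
      h6.2.2 _ _ hz'D' hzD', ?_⟩
    · intro a ha c hc hac
      exact h4 _ (Finset.mem_image_of_mem u ha) _ (Finset.mem_image_of_mem u hc)
        (huinj a ha c hc hac)
    · intro hY
      have hne : z' ≠ z := fun h => hz'D' (h ▸ hzD')
      have : (P ⊔ fromEdgeSet (Y : Set (Sym2 V))).Adj z' z := by
        right
        rw [fromEdgeSet_adj]
        exact ⟨hY, hne⟩
      exact hz'D' ((h6.2.1 _ _ this).2 hzD')
  have hfin : ∀ (Y : Finset (Sym2 V)) (F' : ι → SimpleGraph V) (e : Sym2 V) (l' : ℕ) (v' : V),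
      (Y : Set (Sym2 V)) ⊆ R.edgeSet → Y.card + 1 = A.card →
      (∀ e ∈ Y, ∀ q ∈ e, R.Reachable (rt r w i0) q) →
      (∀ a ∈ A, ∀ c ∈ A, a ≠ c →
        ¬ (R.deleteEdges (insert e (Y : Set (Sym2 V)))).Reachable (u a) (u c)) →
      (∀ c, (F' c).IsTree) →
      (∀ x y, ((∃ c, (T c).Adj x y) ∧ ¬ ∃ a ∈ A, s(x, y) = s(u a, w a)) ∨
        (s(x, y) ∈ Y) ∨ s(x, y) = e → ∃ c, (F' c).Adj x y) →
      e ∈ R.edgeSet → e ∉ Y → Leg F' R r u w β l' → l' ≤ i0 →
      R.Reachable (rt r w l') v' → ¬ (R.deleteEdges {e}).Reachable (rt r w l') v' →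
      (l' = i0 → ∀ a ∈ A,
        ¬ (R.deleteEdges (insert e (Y : Set (Sym2 V)))).Reachable (u a) (rt r w i0)) →
      ∃ (T' : ι → SimpleGraph V) (R' : SimpleGraph V) (l' : ℕ), l' ≤ L ∧ Cfg G T' R' ∧
        R'.edgeSet.ncard ≤ R.edgeSet.ncard ∧ Leg T' R' r u w β l' ∧
        (∀ a, a < l' → St R' r w a = St R r w a) ∧
        (St R' r w l').ncard < (St R r w l').ncard ∧
        (∀ v, cs R' v ≤ cs R v ∨ ∃ a ∈ A, R'.Reachable (u a) v) ∧
        (∀ v, R.Reachable (rt r w i) v → (∀ a ∈ A, ¬ R'.Reachable (u a) v) →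
          cs R' v < cs R (rt r w i)) ∧
        (∀ a ∈ A, cs R' (u a) + A.card ≤ cs R (rt r w i) + 1 + cs R (w a)) ∧
        (R.Reachable r (rt r w i) →
          ∀ a ∈ A, cs R' (u a) + A.card ≤ cs R (rt r w i) + cs R (w a)) ∧
        (∀ a ∈ A, ∀ c ∈ A, a ≠ c →
          cs R' (u a) + cs R' (u c) + A.card ≤
            cs R (rt r w i) + 2 + cs R (w a) + cs R (w c)) := by
    intro Y F' e l' v' h1 h2 h3 h4 h5 h6 h7 h8 h9 h10 h11 h12 h13
    obtain ⟨R', g1, g2, g3, g4, g5, g6, g7, g8, g9, g10⟩ :=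
      mx_fin2 hJOIN G T R r u w β L A b i0 Y F' e l' v' a0
      hC hL hred ha0 hA' hiA huinj h1 h2 h3 h4 h5 h6 h7 h8 h9 h10 h11 h12 h13
    refine ⟨F', R', l', by omega, g1, g2, g3, g4, g5, g6, ?_, ?_, ?_, ?_⟩
    · intro v hv hn
      rw [cs_congr hri]
      exact g7 v (hri.symm.trans hv) hn
    · rw [cs_congr hri]
      exact g8
    · intro hr
      rw [cs_congr hri]
      refine g9 ?_
      rcases Nat.eq_zero_or_pos i0 with h | h
      · omega
      · exfalso
        exact rt_dist hL (c := 0) (d := i0) h hi0L.le (hr.trans hri)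
    · rw [cs_congr hri]
      exact g10
  have sepmono : ∀ (Y : Finset (Sym2 V)) (e : Sym2 V), (∀ a ∈ A, ∀ c ∈ A, a ≠ c →
      ¬ (R.deleteEdges (Y : Set (Sym2 V))).Reachable (u a) (u c)) →
      ∀ a ∈ A, ∀ c ∈ A, a ≠ c →
        ¬ (R.deleteEdges (insert e (Y : Set (Sym2 V)))).Reachable (u a) (u c) :=
    fun Y e h a ha c hc hac hh =>
      h a ha c hc hac (hh.mono (deleteEdges_anti (fun x hx => Or.inr hx)))
  by_cases hrt : rt r w l ∈ D
  · -- the root of the component is in D: use its entering edge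
    cases l with
    | zero => exact absurd hrt hrD
    | succ a1 =>
    have hwD : w a1 ∈ D := hrt
    obtain ⟨hu1, hw1, hpar1⟩ := hL a1 (by omega)
    have hu1D : u a1 ∉ D := fun h => hm a1 (Nat.lt_succ_self _) ⟨_, h, hu1⟩
    have hb1 : β a1 ≠ b := by
      intro e
      have := hPpar a1 (Nat.lt_succ_self _) e
      exact hu1D ((hPD _ _ this.1).2 hwD)
    obtain ⟨Y, y1, y2, y3, y4, y5, y6⟩ := key (u a1) (w a1) hu1D hwD
    have hT1 := hC.tree (β a1)
    set TB : SimpleGraph V := (P ⊔ fromEdgeSet (Y : Set (Sym2 V))) ⊔ edge (u a1) (w a1) with hTB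
    set F1 : ι → SimpleGraph V := fun c => if c = β a1 then
      (T (β a1)).deleteEdges {s(u a1, w a1)} else if c = b then TB else T c with hF1
    set D1 : Set V := {v | ¬ ((T (β a1)).deleteEdges {s(u a1, w a1)}).Reachable v r} with hD1
    have hu1' : u a1 ∈ D1 := par_not hT1.isAcyclic hpar1
    obtain ⟨l1, hl1, hP1, hm1⟩ := first_index (P := fun c => ∃ v ∈ D1, v ∈ St R r w c)
      (n := a1) ⟨u a1, hu1', hu1⟩
    have hF1a : F1 (β a1) = (T (β a1)).deleteEdges {s(u a1, w a1)} := by simp [hF1]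
    have hF1b : F1 b = TB := by
      simp [hF1, Ne.symm hb1]
    have hF1c : ∀ c, c ≠ β a1 → c ≠ b → F1 c = T c := by
      intro c h1 h2
      simp only [hF1]
      rw [if_neg h1, if_neg h2]
    have hne' : ∀ a', a' < l1 → s(u a', w a') ≠ s(u a1, w a1) := by
      intro a' ha' e
      obtain ⟨h1, -, -⟩ := hL a' (by omega)
      have h2 : w a1 ∈ St R r w a1 := by
        rcases Sym2.eq_iff.1 e with ⟨-, e1⟩ | ⟨e1, -⟩
        · rw [← e1]
          exact w_mem (by omega)
        · rw [← e1]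
          exact st_mono (by omega) h1
      exact hw1 h2
    have hPTB : P ≤ TB := le_sup_left.trans le_sup_left
    have hLeg : Leg F1 R r u w β l1 := by
      intro a' ha'
      obtain ⟨h1, h2, h3⟩ := hL a' (by omega)
      refine ⟨h1, h2, ?_⟩
      by_cases hb' : β a' = β a1
      · rw [hb', hF1a]
        exact leg_delete (b := β a1) hT1 (leg_mono (by omega) hL) hm1 a' ha' (hne' a' ha') hb'
      · by_cases hb'' : β a' = b
        · rw [hb'', hF1b]
          exact par_mono hPTB (hPpar a' (by omega) hb'')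
        · rw [hF1c _ hb' hb'']
          exact h3
    obtain ⟨F', e, l', v', g1, g2, g3, g4, g5, g6, g7⟩ := t_CHN V ι R r u w β l1 F1 (β a1) D1
      hC.acyc
      (by
        intro c hc
        by_cases h2 : c = b
        · subst h2
          rw [hF1b]
          exact y5
        · rw [hF1c _ hc h2]
          exact hC.tree c)
      (by
        rw [hF1a]
        exact hole_of_tree hT1 hpar1)
      hLeg (fun a' ha' v' hv' hs => hm1 a' ha' ⟨v', hv', hs⟩) (st_first hP1 hm1)
    have heY : e ∉ Y := by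
      intro h
      induction e using Sym2.ind with
      | _ q q' =>
      have h1 := ends_reach g6 g7 q (Sym2.mem_mk_left q q')
      have h2 := y3 _ h q (Sym2.mem_mk_left q q')
      exact rt_dist hL (c := l') (d := i0) (by omega) (by omega) (h1.trans h2.symm)
    refine hfin Y F' e l' v' y1 y2 y3 (sepmono Y e y4) g2 ?_ g4 heY g5 (by omega) g6 g7
      (by omega)
    intro x y h
    rw [g3]
    rcases h with ⟨⟨c, hc⟩, hn⟩ | h | h
    · left
      by_cases he : s(x, y) = s(u a1, w a1)
      · refine ⟨b, ?_⟩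
        rw [hF1b, hTB, sup_adj, edge_adj]
        right
        refine ⟨?_, hc.ne⟩
        rcases Sym2.eq_iff.1 he with ⟨e1, e2⟩ | ⟨e1, e2⟩
        · exact Or.inl ⟨e1, e2⟩
        · exact Or.inr ⟨e1, e2⟩
      · by_cases h1 : c = β a1
        · subst h1
          refine ⟨β a1, ?_⟩
          rw [hF1a, deleteEdges_adj]
          exact ⟨hc, by simpa using he⟩
        · by_cases h2 : c = b
          · subst h2
            refine ⟨c, ?_⟩
            rw [hF1b]
            exact hPTB ((hPadj _ _).2 ⟨hc, hn⟩)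
          · refine ⟨c, ?_⟩
            rw [hF1c _ h1 h2]
            exact hc
    · left
      refine ⟨b, ?_⟩
      rw [hF1b, hTB]
      left
      right
      rw [fromEdgeSet_adj]
      refine ⟨h, ?_⟩
      intro hxy
      have h1 := y1 h
      rw [mem_edgeSet] at h1
      exact h1.ne hxy
    · exact Or.inr h
  · by_cases hli : l = i0
    · -- the closed exchange
      have hcr : P.Reachable r (rt r w i0) := by
        by_contra hh
        exact hrt (hli ▸ fun h => hh (Reachable.symm h))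
      have hcX : rt r w i0 ∉ X := by
        intro h
        rw [hX, Finset.mem_image] at h
        obtain ⟨a, ha, h⟩ := h
        exact huD a ha (h ▸ hcr.symm)
      obtain ⟨Y2, f1, f2, f3, f4, f5, f6⟩ := hSEP2 V (T b) R r (rt r w i0) X yy hT hC.acyc hXpar
        (by
          intro x hx
          rw [hX, Finset.mem_image] at hx
          obtain ⟨a, ha, rfl⟩ := hx
          exact (hA' a ha).2.2) hcX hcr
      rw [← hP] at f6
      have hua0 : u a0 ∈ X := Finset.mem_image_of_mem u ha0
      obtain ⟨z', z, hadj, hz', hz, -, hcut⟩ := cross hC.acyc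
        (D := {v | ¬ (R.deleteEdges (Y2 : Set (Sym2 V))).Reachable (rt r w i0) v})
        hi0 (fun h => h (Reachable.refl _)) (f5 _ hua0)
      have heY2 : s(z', z) ∈ Y2 := by
        by_contra hn
        have hh : (R.deleteEdges (Y2 : Set (Sym2 V))).Adj z' z := by
          rw [deleteEdges_adj]
          exact ⟨hadj, hn⟩
        refine hz (Reachable.trans ?_ hh.reachable)
        by_contra hh'
        exact hz' hh'
      have hins : (insert s(z', z) ((Y2.erase s(z', z) : Finset (Sym2 V)) : Set (Sym2 V))) =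
          (Y2 : Set (Sym2 V)) := by
        rw [← Finset.coe_insert, Finset.insert_erase heY2]
      set TB : SimpleGraph V := P ⊔ fromEdgeSet (Y2 : Set (Sym2 V)) with hTB
      set F1 : ι → SimpleGraph V := fun c => if c = b then TB else T c with hF1
      have hF1b : F1 b = TB := by simp [hF1]
      have hF1c : ∀ c, c ≠ b → F1 c = T c := by
        intro c h1
        simp only [hF1]
        rw [if_neg h1]
      have hPTB : P ≤ TB := le_sup_left
      have hYadj : ∀ x y, s(x, y) ∈ Y2 → TB.Adj x y := by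
        intro x y h
        rw [hTB]
        right
        rw [fromEdgeSet_adj]
        refine ⟨h, ?_⟩
        intro hxy
        have h1 := f1 h
        rw [mem_edgeSet] at h1
        exact h1.ne hxy
      refine hfin (Y2.erase s(z', z)) F1 s(z', z) i0 (u a0)
        (fun x hx => f1 (Finset.mem_of_mem_erase hx)) ?_
        (fun e he => f3 e (Finset.mem_of_mem_erase he)) ?_ ?_ ?_ hadj
        (fun h => (Finset.ne_of_mem_erase h) rfl) ?_ le_rfl hi0 hcut ?_
      · rw [Finset.card_erase_of_mem heY2, f2, hXcard]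
        have h8 : 0 < A.card := Finset.card_pos.2 ⟨a0, ha0⟩
        omega
      · intro a ha c hc hac
        rw [hins]
        exact f4 _ (Finset.mem_image_of_mem u ha) _ (Finset.mem_image_of_mem u hc)
          (huinj a ha c hc hac)
      · intro c
        by_cases h : c = b
        · subst h
          rw [hF1b]
          exact f6
        · rw [hF1c _ h]
          exact hC.tree c
      · intro x y h
        have h' : ((∃ c, (T c).Adj x y) ∧ ¬ ∃ a ∈ A, s(x, y) = s(u a, w a)) ∨ s(x, y) ∈ Y2 := by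
          rcases h with h | h | h
          · exact Or.inl h
          · exact Or.inr (Finset.mem_of_mem_erase h)
          · exact Or.inr (h ▸ heY2)
        rcases h' with ⟨⟨c, hc⟩, hn⟩ | h
        · by_cases h2 : c = b
          · subst h2
            refine ⟨c, ?_⟩
            rw [hF1b]
            exact hPTB ((hPadj _ _).2 ⟨hc, hn⟩)
          · refine ⟨c, ?_⟩
            rw [hF1c _ h2]
            exact hc
        · refine ⟨b, ?_⟩
          rw [hF1b]
          exact hYadj x y h
      · intro a ha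
        obtain ⟨h1, h2, h3⟩ := hL a (by omega)
        refine ⟨h1, h2, ?_⟩
        by_cases h : β a = b
        · rw [h, hF1b]
          exact par_mono hPTB (hPpar a (by omega) h)
        · rw [hF1c _ h]
          exact h3
      · intro _ a ha
        rw [hins]
        exact fun h => f5 _ (Finset.mem_image_of_mem u ha) h.symm
    -- direct
    obtain ⟨v0, hv0D, hv0⟩ : ∃ v ∈ D, R.Reachable (rt r w l) v := by
      obtain ⟨v, hv, hr⟩ := st_first hPl hm
      exact ⟨v, hv, hr⟩
    obtain ⟨z', z, hadj, hz', hz, hpz, hcut⟩ := cross hC.acyc hv0 hrt hv0D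
    obtain ⟨Y, y1, y2, y3, y4, y5, y6⟩ := key z' z hz' hz
    set TB : SimpleGraph V := (P ⊔ fromEdgeSet (Y : Set (Sym2 V))) ⊔ edge z' z with hTB
    set F1 : ι → SimpleGraph V := fun c => if c = b then TB else T c with hF1
    have hF1b : F1 b = TB := by simp [hF1]
    have hF1c : ∀ c, c ≠ b → F1 c = T c := by
      intro c h1
      simp only [hF1]
      rw [if_neg h1]
    have hPTB : P ≤ TB := le_sup_left.trans le_sup_left
    refine hfin Y F1 s(z', z) l v0 y1 y2 y3 (sepmono Y _ y4) ?_ ?_ hadj y6 ?_ hl hv0 hcut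
      (fun h => absurd h hli)
    · intro c
      by_cases h : c = b
      · subst h
        rw [hF1b]
        exact y5
      · rw [hF1c _ h]
        exact hC.tree c
    · intro x y h
      rcases h with ⟨⟨c, hc⟩, hn⟩ | h | h
      · by_cases h2 : c = b
        · subst h2
          refine ⟨c, ?_⟩
          rw [hF1b]
          exact hPTB ((hPadj _ _).2 ⟨hc, hn⟩)
        · refine ⟨c, ?_⟩
          rw [hF1c _ h2]
          exact hc
      · refine ⟨b, ?_⟩
        rw [hF1b, hTB]
        left
        right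
        rw [fromEdgeSet_adj]
        refine ⟨h, ?_⟩
        intro hxy
        have h1 := y1 h
        rw [mem_edgeSet] at h1
        exact h1.ne hxy
      · refine ⟨b, ?_⟩
        rw [hF1b, hTB, sup_adj, edge_adj]
        right
        rcases Sym2.eq_iff.1 h with ⟨e1, e2⟩ | ⟨e1, e2⟩
        · refine ⟨Or.inl ⟨e1, e2⟩, ?_⟩
          rw [e1, e2]
          exact hadj.ne
        · refine ⟨Or.inr ⟨e1, e2⟩, ?_⟩
          rw [e1, e2]
          exact hadj.ne.symm
    · intro a ha
      obtain ⟨h1, h2, h3⟩ := hL a (by omega)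
      refine ⟨h1, h2, ?_⟩
      by_cases h : β a = b
      · rw [h, hF1b]
        exact par_mono hPTB (hPpar a ha h)
      · rw [hF1c _ h]
        exact h3

end Pool.Agent.Run7.h970.ND
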