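import Pool.Agent.Run7.h970.ND.All
import Pool.Agent.Run7.h970.ND.Mx3

/-!
# The extremal choice of the second stage (MP_a0ac48_co)
-/

set_option autoImplicit false

namespace Pool.Agent.Run7.h970.ND

open SimpleGraph Pool.Agent.Run7.h141.ND

theorem t_END2 (hMX : S_MX2) (hBND : S_BND2) (k d D : ℕ) (hk : 1 ≤ k)
    (hD : d + k * (∑ m ∈ Finset.range d, (d - (k + 1) * m)) ≤ (k + 1) * D)
    (V : Type) [Fintype V] [Nonempty V] (G : SimpleGraph V)
    (hG : ∀ S : Set V, 2 ≤ S.ncard →
      (k + d + 1) * ec G S ≤ (k * (k + d + 1) + d) * (S.ncard - 1)) :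
    ∃ (T : Fin k → SimpleGraph V) (R : SimpleGraph V), Cfg G T R ∧ ∀ v, cs R v ≤ D + 1 := by
  have hNW := Pool.Agent.Run7.h799.ND.t_NW
  have hCNT := Pool.Agent.Run7.h688.ND.t_CNT
  have hLEX := Pool.Agent.Run7.h24.ND.t_LEX
  have hRED := t_RED
  have : Nonempty (Fin k) := ⟨⟨0, hk⟩⟩
  have hdD : d ≤ D := by
    rcases Nat.eq_zero_or_pos d with h | h
    · omega
    · have h1 : d ≤ ∑ m ∈ Finset.range d, (d - (k + 1) * m) := by
        have := Finset.single_le_sum (f := fun m => d - (k + 1) * m)
          (fun i _ => Nat.zero_le _) (Finset.mem_range.2 h)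
        simpa using this
      have h2 : (k + 1) * d ≤ (k + 1) * D := by
        calc (k + 1) * d = d + k * d := by ring
          _ ≤ d + k * (∑ m ∈ Finset.range d, (d - (k + 1) * m)) :=
            Nat.add_le_add_left (Nat.mul_le_mul_left k h1) d
          _ ≤ _ := hD
      exact Nat.le_of_mul_le_mul_left h2 (Nat.succ_pos k)
  obtain ⟨T0, R0, h0⟩ := hNW V (Fin k) G (by
    intro S hS
    rw [Fintype.card_fin]
    rcases Nat.lt_or_ge S.ncard 2 with h | h
    · rw [ec_one G (by omega)]
      exact Nat.zero_le _
    · have h1 := hG S h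
      have h2 : (k + d + 1) * ec G S ≤ (k + d + 1) * ((k + 1) * (S.ncard - 1)) := by
        refine h1.trans ?_
        have : k * (k + d + 1) + d ≤ (k + d + 1) * (k + 1) := by nlinarith
        calc (k * (k + d + 1) + d) * (S.ncard - 1) ≤ ((k + d + 1) * (k + 1)) * (S.ncard - 1) :=
              Nat.mul_le_mul_right _ this
          _ = _ := by ring
      exact Nat.le_of_mul_le_mul_left h2 (by omega))
  by_contra hcon
  push Not at hcon
  -- the minimal number of edges
  obtain ⟨m₁, ⟨T1, R1, hc1, hm1⟩, hmin1⟩ := exists_least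
    (P := fun m => ∃ (T : Fin k → SimpleGraph V) (R : SimpleGraph V),
      Cfg G T R ∧ R.edgeSet.ncard = m) ⟨_, T0, R0, h0, rfl⟩
  have hm : ∀ (T : Fin k → SimpleGraph V) (R : SimpleGraph V), Cfg G T R →
      m₁ ≤ R.edgeSet.ncard := fun T R h => hmin1 _ ⟨T, R, h, rfl⟩
  -- the minimal size of the largest component
  have hcard : ∀ v, cs R1 v ≤ Fintype.card V := by
    intro v
    refine (Set.ncard_le_ncard (Set.subset_univ _) (Set.toFinite _)).trans ?_
    rw [Set.ncard_univ, Nat.card_eq_fintype_card]
  obtain ⟨ν, ⟨T2, R2, hc2, hm2, hν2⟩, hmin2⟩ := exists_least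
    (P := fun n => ∃ (T : Fin k → SimpleGraph V) (R : SimpleGraph V),
      Cfg G T R ∧ R.edgeSet.ncard = m₁ ∧ ∀ v, cs R v ≤ n) ⟨_, T1, R1, hc1, hm1, hcard⟩
  have hνμ : D + 1 < ν := by
    obtain ⟨v, hv⟩ := hcon T2 R2 hc2
    exact lt_of_lt_of_le hv (hν2 v)
  -- the minimal number of the vertices in the largest components
  obtain ⟨N₀, ⟨T3, R3, hc3, hm3, hν3, hN3⟩, hmin3⟩ := exists_least
    (P := fun N => ∃ (T : Fin k → SimpleGraph V) (R : SimpleGraph V),
      Cfg G T R ∧ R.edgeSet.ncard = m₁ ∧ (∀ v, cs R v ≤ ν) ∧ {v | ν ≤ cs R v}.ncard = N)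
    ⟨_, T2, R2, hc2, hm2, hν2, rfl⟩
  obtain ⟨r, hr3⟩ : ∃ r, cs R3 r = ν := by
    by_contra hno
    push Not at hno
    have h1 := hmin2 (ν - 1) ⟨T3, R3, hc3, hm3, fun v => by
      have h2 := hν3 v
      have h3 := hno v
      omega⟩
    omega
  obtain ⟨T, R, u, w, β, L, ⟨hcfg, hme, hcs, hN, hr⟩, hleg, hclosed, hmini⟩ :=
    hLEX V (Fin k) r (fun T R => Cfg G T R ∧ R.edgeSet.ncard = m₁ ∧ (∀ v, cs R v ≤ ν) ∧
      {v | ν ≤ cs R v}.ncard ≤ N₀ ∧ cs R r = ν) ⟨T3, R3, hc3, hm3, hν3, hN3.le, hr3⟩
  have hred := hRED V (Fin k) G T R r u w β L hcfg (fun T' R' h => by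
    rw [hme]
    exact hm T' R' h) hleg
  have hcnt := hCNT V (Fin k) G T R r w L hcfg (fun a ha => (hleg a ha).2.1)
    (fun x hx b y hp => ⟨hclosed x hx b y hp, hred x hx b y hp⟩)
  obtain ⟨D', hD'⟩ : ∃ D', ν = D' + 2 := ⟨ν - 2, by omega⟩
  have hDD' : D ≤ D' := by omega
  -- no improvement is possible
  have hno : ∀ (T' : Fin k → SimpleGraph V) (R' : SimpleGraph V) (l' : ℕ), l' ≤ L →
      Cfg G T' R' → R'.edgeSet.ncard ≤ R.edgeSet.ncard → Leg T' R' r u w β l' →
      (∀ a, a < l' → St R' r w a = St R r w a) → (St R' r w l').ncard < (St R r w l').ncard →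
      (∀ v, cs R' v ≤ ν) → {v | ν ≤ cs R' v}.ncard ≤ {v | ν ≤ cs R v}.ncard →
      (cs R' r < ν → {v | ν ≤ cs R' v}.ncard < {v | ν ≤ cs R v}.ncard) → False := by
    intro T' R' l' hl' hcfg' hle' hleg' hSt' hlt' hcsν hN' hN''
    have hme' : R'.edgeSet.ncard = m₁ := le_antisymm (hme ▸ hle') (hm T' R' hcfg')
    rcases Nat.eq_zero_or_pos l' with h0' | hpos
    · subst h0'
      rw [← cs_St, ← cs_St, hr] at hlt'
      have h3 := hN'' hlt'
      have h4 := hmin3 _ ⟨T', R', hcfg', hme', hcsν, rfl⟩
      omega
    · have h1 : cs R' r = ν := by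
        rw [cs_St R' r w, hSt' 0 hpos, ← cs_St, hr]
      have h2 := hmini T' R' l' ⟨hcfg', hme', hcsν, hN'.trans hN, h1⟩ hl' hleg' hSt'
      omega
  -- the exchanges are impossible
  have hkey : ∀ (A : Finset ℕ) (b : Fin k) (i : ℕ), i ≤ L → A.Nonempty →
      (∀ a ∈ A, a < L ∧ β a = b ∧ R.Reachable (rt r w i) (u a) ∧
        (Fintype.card (Fin k) + 1) * (cs R (w a) - 1) < d) →
      ∃ a ∈ A, D' + A.card ≤ cs R (w a) + min (cs R (rt r w i) - 1) D' := by
    intro A b i _ hA hAp
    by_contra hlt
    push Not at hlt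
    obtain ⟨T', R', l', hl', hcfg', hle', hleg', hSt', hlt', hold, hrem, hsz, hszr, hpair⟩ :=
      hMX V (Fin k) G T R r u w β L A b i hcfg hleg hred hA
        (fun a ha => ⟨(hAp a ha).1, (hAp a ha).2.1, (hAp a ha).2.2.1⟩)
    have hApos : 0 < A.card := Finset.card_pos.2 hA
    -- all new components are smaller than ν
    have hsmall : (∀ a ∈ A, cs R' (u a) < ν) → False := by
      intro hs
      have hsub : {v | ν ≤ cs R' v} ⊆ {v | ν ≤ cs R v} := by
        intro v hv
        have hv' : ν ≤ cs R' v := hv
        show ν ≤ cs R v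
        rcases hold v with h | ⟨a, ha, h⟩
        · omega
        · have h1 := hs a ha
          rw [cs_congr h] at h1
          omega
      refine hno T' R' l' hl' hcfg' hle' hleg' hSt' hlt' ?_
        (Set.ncard_le_ncard hsub (Set.toFinite _)) ?_
      · intro v
        rcases hold v with h | ⟨a, ha, h⟩
        · have := hcs v
          omega
        · have h1 := hs a ha
          rw [cs_congr h] at h1
          omega
      · intro hrr
        have hss : {v | ν ≤ cs R' v} ⊂ {v | ν ≤ cs R v} := by
          refine ⟨hsub, fun hback => ?_⟩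
          have h1 : r ∈ {v | ν ≤ cs R v} := hr.ge
          have h2 : ν ≤ cs R' r := hback h1
          omega
        exact Set.ncard_lt_ncard hss (Set.toFinite _)
    have hci := hcs (rt r w i)
    have hcpos : 0 < cs R (rt r w i) := by
      refine (Set.ncard_pos (Set.toFinite _)).2 ⟨rt r w i, ?_⟩
      exact Reachable.refl _
    rcases Nat.lt_or_ge (cs R (rt r w i)) ν with hlt1 | hge
    · -- the parent component is not of maximal size
      refine hsmall ?_
      intro a ha
      have h1 := hsz a ha
      have h2 := hlt a ha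
      rw [min_eq_left (by omega)] at h2
      omega
    · have hceq : cs R (rt r w i) = ν := le_antisymm hci hge
      have hwa : ∀ a ∈ A, cs R (w a) < A.card := by
        intro a ha
        have h2 := hlt a ha
        rw [min_eq_right (by omega)] at h2
        omega
      by_cases hroot : R.Reachable r (rt r w i)
      · refine hsmall ?_
        intro a ha
        have h1 := hszr hroot a ha
        have h2 := hwa a ha
        omega
      · by_cases hex : ∃ a ∈ A, ν ≤ cs R' (u a)
        · obtain ⟨a0, ha0, h0a⟩ := hex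
          have hle : ∀ a ∈ A, cs R' (u a) ≤ ν := by
            intro a ha
            have h1 := hsz a ha
            have h2 := hwa a ha
            omega
          have huniq : ∀ a ∈ A, ν ≤ cs R' (u a) → a = a0 := by
            intro a ha h1
            by_contra hne
            have h2 := hpair a ha a0 ha0 hne
            have h3 : 1 < A.card := Finset.one_lt_card.2 ⟨a, ha, a0, ha0, hne⟩
            have h4 := (hAp a ha).2.2.2
            have h5 := (hAp a0 ha0).2.2.2
            rw [Fintype.card_fin] at h4 h5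
            have h6 : 2 * (cs R (w a) - 1) < d :=
              lt_of_le_of_lt (Nat.mul_le_mul_right _ (by omega)) h4
            have h7 : 2 * (cs R (w a0) - 1) < d :=
              lt_of_le_of_lt (Nat.mul_le_mul_right _ (by omega)) h5
            omega
          obtain ⟨Q, hQ⟩ : ∃ Q : Set V, Q = {v | ν ≤ cs R v ∧ ¬ R.Reachable (rt r w i) v} :=
            ⟨_, rfl⟩
          have hQm : ∀ v, v ∈ Q ↔ (ν ≤ cs R v ∧ ¬ R.Reachable (rt r w i) v) := by
            intro v
            rw [hQ]
            exact Iff.rfl
          have hS : {v | ν ≤ cs R v}.ncard = ν + Q.ncard := by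
            have h1 : {v | ν ≤ cs R v} = {v | R.Reachable (rt r w i) v} ∪ Q := by
              ext v
              constructor
              · intro hv
                by_cases h : R.Reachable (rt r w i) v
                · exact Or.inl h
                · exact Or.inr ((hQm v).2 ⟨hv, h⟩)
              · rintro (hv | hv)
                · have hv' : R.Reachable (rt r w i) v := hv
                  show ν ≤ cs R v
                  rw [← cs_congr hv', hceq]
                · exact ((hQm v).1 hv).1
            have h2 : Disjoint {v | R.Reachable (rt r w i) v} Q := by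
              rw [Set.disjoint_left]
              intro v hv hv'
              exact ((hQm v).1 hv').2 hv
            rw [h1, Set.ncard_union_eq h2 (Set.toFinite _) (Set.toFinite _)]
            have h3 : {v | R.Reachable (rt r w i) v}.ncard = ν := hceq
            rw [h3]
          have hS' : {v | ν ≤ cs R' v} ⊆ {v | R'.Reachable (u a0) v} ∪ Q := by
            intro v hv
            have hv' : ν ≤ cs R' v := hv
            by_cases h : ∃ a ∈ A, R'.Reachable (u a) v
            · obtain ⟨a, ha, h1⟩ := h
              have h2 := huniq a ha (by rw [cs_congr h1]; exact hv')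
              rw [h2] at h1
              exact Or.inl h1
            · right
              rw [hQm]
              have h1 : ¬ R.Reachable (rt r w i) v := by
                intro h2
                have h3 := hrem v h2 (fun a ha h4 => h ⟨a, ha, h4⟩)
                omega
              refine ⟨?_, h1⟩
              rcases hold v with h2 | h2
              · omega
              · exact absurd h2 h
          have hN1 : {v | R'.Reachable (u a0) v}.ncard ≤ ν := hle a0 ha0
          refine hno T' R' l' hl' hcfg' hle' hleg' hSt' hlt' ?_ ?_ ?_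
          · intro v
            rcases hold v with h | ⟨a, ha, h⟩
            · exact h.trans (hcs v)
            · rw [← cs_congr h]
              exact hle a ha
          · rw [hS]
            refine (Set.ncard_le_ncard hS' (Set.toFinite _)).trans ?_
            refine (Set.ncard_union_le _ _).trans ?_
            omega
          · intro hrr
            have hrQ : r ∈ Q := (hQm r).2 ⟨hr.ge, fun h => hroot h.symm⟩
            have h1 : {v | ν ≤ cs R' v} ⊆ {v | R'.Reachable (u a0) v} ∪ (Q \ {r}) := by
              intro v hv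
              rcases hS' hv with h2 | h2
              · exact Or.inl h2
              · right
                refine ⟨h2, ?_⟩
                rintro rfl
                have hv' : ν ≤ cs R' v := hv
                omega
            have h2 := (Set.ncard_le_ncard h1 (Set.toFinite _)).trans (Set.ncard_union_le _ _)
            have h3 := Set.ncard_sdiff_singleton_add_one hrQ (Set.toFinite _)
            omega
        · push Not at hex
          exact hsmall hex
  have hb := hBND V (Fin k) R r u w β L d D'
    (fun a ha => ⟨(hleg a ha).1, (hleg a ha).2.1⟩) (by rw [hr, hD']) hkey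
    (by
      rw [Fintype.card_fin]
      exact hD.trans (Nat.mul_le_mul_left _ hDD'))
  -- the arithmetic
  have hU : ν ≤ (St R r w L).ncard := by
    rw [← hr, cs_St R r w]
    refine Set.ncard_le_ncard ?_ (Set.toFinite _)
    rintro v ⟨c, hc, h⟩
    exact ⟨c, hc.trans (Nat.zero_le _), h⟩
  have hGU := hG (St R r w L) (by omega)
  rw [Fintype.card_fin] at hcnt hb
  obtain ⟨n, hn⟩ : ∃ n, (St R r w L).ncard = n + 1 := ⟨(St R r w L).ncard - 1, by omega⟩
  rw [hn] at hcnt hb hGU
  rw [Nat.add_sub_cancel] at hcnt hb hGU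
  have e1 : n + 1 - (L + 1) = n - L := by omega
  rw [e1] at hcnt
  have h1 : (k + d + 1) * (k * n + (n - L)) ≤ (k * (k + d + 1) + d) * n :=
    (Nat.mul_le_mul_left _ hcnt).trans hGU
  have h2 : (n : ℤ) - L ≤ ((n - L : ℕ) : ℤ) := by omega
  have h3 : ((k : ℤ) + d + 1) * (k * n + ((n - L : ℕ) : ℤ)) ≤ (k * (k + d + 1) + d) * n := by
    exact_mod_cast h1
  have h4 : ((k : ℤ) + d + 1) * ((n : ℤ) - L) ≤ ((k : ℤ) + d + 1) * ((n - L : ℕ) : ℤ) :=
    mul_le_mul_of_nonneg_left h2 (by positivity)
  have h5 : ((k : ℤ) + d + 1) * L < ((k : ℤ) + 1) * n := by exact_mod_cast hb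
  nlinarith

end Pool.Agent.Run7.h970.ND
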