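import Pool.Agent.Run7.h970.ND.Stm

/-!
# MP_a0ac48_co: interface of the second stage (the strong nine dragon tree conjecture with the bound
`D`, `(k + 1) D ≥ d + k ∑ (d - (k + 1) m)`; exact for `d ≤ k + 1`)
-/

set_option autoImplicit false

namespace Pool.Agent.Run7.h970.ND

open SimpleGraph

/-- **Piece SEP2** (variant of `S_SEP` without hole). The edges `x → yy x`, `x ∈ X`, are removed from
the tree `T`; the forest `R` has `X` and `c` in one component; `c` is still connected with `r`. There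
is a set `Y` of `|X|` edges of this component such that `R` without `Y` separates the vertices of
`X ∪ {c}` pairwise, and `T` without the edges `x → yy x` with the edges `Y` is a tree.

Proof. Adapt `Pool.Agent.Run7.h680.ND.t_SEP` (file `Pool/Agent/Run7/h680/ND/SEP.lean`): root `R` at `c`
(`x1` there) and apply `sepcore` of that file to `P` = `T` without the removed edges, `r`, `x1 := c` and the
set `insert c X`. It gives `Y₀ ⊆ C \ {c}` with: (1) `P` with the edges `z → pp z`, `z ∈ Y₀`, and the edge `r c` is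
connected, so `P` with the edges `z → pp z` is connected (`r` and `c` are `P`-reachable); (2) in
`A'` = the edges `z → pp z`, `z ∈ C`, `z ≠ c`, `z ∉ Y₀`, every vertex of `C` reaches `insert c X`. Counting: `P`
has `|V| - 1 - |X|` edges, so (1) gives `|X| ≤ |Y₀|`; `count_star` with (2) gives `|C| ≤ (|C| - 1 - |Y₀|) +
|X| + 1`, so `|Y₀| ≤ |X|`. So `|Y₀| = |X|` and (1) is a tree. If two vertices `x ≠ x'` of `insert c X` were
reachable in `R` without `Y`, then in `A'` every vertex of `C` reaches `insert c X` without one of them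
(different from `c`), and `count_star` gives `|C| ≤ (|C| - 1 - |X|) + (|X| - 1) + 1`, a contradiction. -/
def S_SEP2 : Prop :=
  ∀ (V : Type) [Fintype V] (T R : SimpleGraph V) (r c : V) (X : Finset V) (yy : V → V),
    T.IsTree → R.IsAcyclic → (∀ x ∈ X, Par T r x (yy x)) → (∀ x ∈ X, R.Reachable c x) → c ∉ X →
    (T.deleteEdges {e | ∃ x ∈ X, e = s(x, yy x)}).Reachable r c →
    ∃ Y : Finset (Sym2 V), (Y : Set (Sym2 V)) ⊆ R.edgeSet ∧ Y.card = X.card ∧
      (∀ e ∈ Y, ∀ z ∈ e, R.Reachable c z) ∧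
      (∀ x ∈ X, ∀ x' ∈ X, x ≠ x' → ¬ (R.deleteEdges (Y : Set (Sym2 V))).Reachable x x') ∧
      (∀ x ∈ X, ¬ (R.deleteEdges (Y : Set (Sym2 V))).Reachable c x) ∧
      (T.deleteEdges {e | ∃ x ∈ X, e = s(x, yy x)} ⊔ fromEdgeSet (Y : Set (Sym2 V))).IsTree

/-- **Piece BND2** (counting). `K = |ι|`, `x i = cs R (rt i) - 1`, `y a = cs R (w a) - 1 = x (a + 1)`,
`f m = d - (K + 1) m` (truncated), the components of `rt 0, ..., rt L` are disjoint, so
`|U| - 1 = L + x 0 + ∑ a < L, y a` and it has to be shown that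
`(K + 1) (x 0) + ∑ a < L, ((K + 1) (y a) - d) > 0` (in `ℤ`).

Proof. (a) For a finite set `A` of indices and `j` such that every nonempty `A' ⊆ A` has an `a` with
`j + |A'| ≤ y a + 1`: `∑ a ∈ A, f (y a) ≤ ∑ m < d, f (j + m)` (induction on `|A|`: the `a` for `A' = A` has
`f (y a) ≤ f (j + |A| - 1)`, remove it; `f m = 0` for `m ≥ d`, so only `|A| ≤ d` terms matter, or prove
`≤ ∑ m < |A|` first and compare). (b) For `i ≤ L` and `b` let `A` be the set of the `a < L` with `β a = b`, `u a` in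
the component of `rt i` and `(K + 1) (y a) < d`; `j = D - min (x i) D`; the hypothesis gives (a), so
`∑ a ∈ A, f (y a) ≤ h i := ∑ m < d, f (j i + m)`; every `a < L` has `u a` in the component of some `rt i`, `i ≤ L`,
and `f (y a) = 0` if `(K + 1) (y a) ≥ d`, so `∑ a < L, f (y a) ≤ K ∑ i ≤ L, h i`. (c) `K * h i ≤ (K + 1) (x i) - d` or
`h i = 0`, so `K * h i ≤ g (x i)` with `g x = (K + 1) x - d` truncated: let `F j = K ∑ m < d, f (j + m) + (K + 1) j`; if
`f j > 0` then `F j ≤ F 0 ≤ (K + 1) D - d`, by induction: for `f (j + 1) > 0`, `f j ≥ K + 2`, and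
`F (j + 1) - F j ≤ - K f j + (K + 1) < 0`; so `K * h i ≤ (K + 1) (D - j) - d ≤ (K + 1) (x i) - d`. If `f j = 0` then `h i = 0`.
(d) `x 0 = D + 1`, `K * h 0 ≤ (K + 1) D - d < (K + 1) (x 0)`. As `(K + 1) y - d = g y - f y`:
`(K + 1) (x 0) + ∑ a < L, (g (y a) - f (y a)) ≥ (K + 1) (x 0) + ∑_{1 ≤ i ≤ L} g (x i) - K ∑_{i ≤ L} h i > 0`. -/
def S_BND2 : Prop :=
  ∀ (V : Type) [Fintype V] (ι : Type) [Fintype ι] [Nonempty ι] (R : SimpleGraph V) (r : V)
    (u w : ℕ → V) (β : ℕ → ι) (L d D : ℕ),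
    (∀ a, a < L → u a ∈ St R r w a ∧ w a ∉ St R r w a) →
    cs R r = D + 2 →
    (∀ (A : Finset ℕ) (b : ι) (i : ℕ), i ≤ L → A.Nonempty →
      (∀ a ∈ A, a < L ∧ β a = b ∧ R.Reachable (rt r w i) (u a) ∧
        (Fintype.card ι + 1) * (cs R (w a) - 1) < d) →
      ∃ a ∈ A, D + A.card ≤ cs R (w a) + min (cs R (rt r w i) - 1) D) →
    d + Fintype.card ι * (∑ m ∈ Finset.range d, (d - (Fintype.card ι + 1) * m)) ≤
      (Fintype.card ι + 1) * D →
    (Fintype.card ι + d + 1) * L < (Fintype.card ι + 1) * ((St R r w L).ncard - 1)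

/-- **Piece MX2** (the exchange for every `A`; uses CHN, SEP, SEP2, JOIN; helper970). -/
def S_MX2 : Prop :=
  ∀ (V : Type) [Fintype V] (ι : Type) [Fintype ι] (G : SimpleGraph V) (T : ι → SimpleGraph V)
    (R : SimpleGraph V) (r : V) (u w : ℕ → V) (β : ℕ → ι) (L : ℕ) (A : Finset ℕ) (b : ι)
    (i : ℕ),
    Cfg G T R → Leg T R r u w β L →
    (∀ x ∈ St R r w L, ∀ b y, Par (T b) r x y → G.Adj x y ∧ ¬ R.Adj x y ∧
      ∀ b', b' ≠ b → ¬ (T b').Adj x y) →
    A.Nonempty → (∀ a ∈ A, a < L ∧ β a = b ∧ R.Reachable (rt r w i) (u a)) →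
    ∃ (T' : ι → SimpleGraph V) (R' : SimpleGraph V) (l' : ℕ), l' ≤ L ∧ Cfg G T' R' ∧
      R'.edgeSet.ncard ≤ R.edgeSet.ncard ∧ Leg T' R' r u w β l' ∧
      (∀ a, a < l' → St R' r w a = St R r w a) ∧
      (St R' r w l').ncard < (St R r w l').ncard ∧
      (∀ v, cs R' v ≤ cs R v ∨ ∃ a ∈ A, R'.Reachable (u a) v) ∧
      (∀ v, R.Reachable (rt r w i) v → (∀ a ∈ A, ¬ R'.Reachable (u a) v) →
        cs R' v < cs R (rt r w i)) ∧
      (∀ a ∈ A, cs R' (u a) + A.card ≤ cs R (rt r w i) + 1 + cs R (w a)) ∧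
      (R.Reachable r (rt r w i) → ∀ a ∈ A, cs R' (u a) + A.card ≤ cs R (rt r w i) + cs R (w a)) ∧
      (∀ a ∈ A, ∀ c ∈ A, a ≠ c →
        cs R' (u a) + cs R' (u c) + A.card ≤ cs R (rt r w i) + 2 + cs R (w a) + cs R (w c))

end Pool.Agent.Run7.h970.ND
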