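import Pool.Agent.Run7.h970.ND.Chn

set_option autoImplicit false

namespace Pool.Agent.Run7.h970.ND

open SimpleGraph

variable {V : Type}

theorem reach_delete {R : SimpleGraph V} {p v : V} {S : Set (Sym2 V)}
    (h : ∀ e ∈ S, ∀ z ∈ e, ¬ R.Reachable p z) (hv : R.Reachable p v) :
    (R.deleteEdges S).Reachable p v := by
  obtain ⟨q⟩ := hv
  refine ⟨q.toDeleteEdges S ?_⟩
  intro e he heS
  induction e using Sym2.ind with
  | _ x y =>
  classical
  exact h _ heS x (Sym2.mem_mk_left x y) (q.takeUntil x (q.fst_mem_support_of_mem_edges he)).reachable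

theorem ends_reach {R : SimpleGraph V} {p v : V} {e : Sym2 V} (h : R.Reachable p v)
    (hn : ¬ (R.deleteEdges {e}).Reachable p v) : ∀ z ∈ e, R.Reachable p z := by
  classical
  obtain ⟨q⟩ := h
  have he : e ∈ q.edges := by
    by_contra hh
    refine hn ⟨q.toDeleteEdges {e} ?_⟩
    intro e' he' h2
    rw [Set.mem_singleton_iff] at h2
    exact hh (h2 ▸ he')
  intro z hz
  induction e using Sym2.ind with
  | _ x y =>
  rcases Sym2.mem_iff.1 hz with rfl | rfl
  · exact (q.takeUntil z (q.fst_mem_support_of_mem_edges he)).reachable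
  · exact (q.takeUntil z (q.snd_mem_support_of_mem_edges he)).reachable

theorem cs_congr {R : SimpleGraph V} {p q : V} (h : R.Reachable p q) : cs R p = cs R q := by
  have : {x | R.Reachable p x} = {x | R.Reachable q x} := by
    ext x
    exact ⟨fun h1 => h.symm.trans h1, fun h1 => h.trans h1⟩
  simp only [cs, this]

theorem rt_dist {ι : Type} {F : ι → SimpleGraph V} {R : SimpleGraph V} {r : V} {u w : ℕ → V}
    {β : ℕ → ι} {L c d : ℕ} (hL : Leg F R r u w β L) (hcd : c < d) (hd : d ≤ L) :
    ¬ R.Reachable (rt r w c) (rt r w d) := by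
  intro h
  cases d with
  | zero => omega
  | succ d' =>
    exact (hL d' (by omega)).2.1 ⟨c, by omega, h⟩

theorem mx_fin (hJOIN : S_JOIN) [Fintype V] {ι : Type} (G : SimpleGraph V)
    (T : ι → SimpleGraph V) (R : SimpleGraph V) (r : V) (u w : ℕ → V) (β : ℕ → ι) (L : ℕ)
    (A : Finset ℕ) (b : ι) (i s : ℕ) (Y : Finset (Sym2 V)) (F' : ι → SimpleGraph V)
    (e : Sym2 V) (l' : ℕ) (v' : V) (a0 : ℕ)
    (hC : Cfg G T R) (hL : Leg T R r u w β L)
    (hred : ∀ x ∈ St R r w L, ∀ b y, Par (T b) r x y → G.Adj x y ∧ ¬ R.Adj x y ∧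
      ∀ b', b' ≠ b → ¬ (T b').Adj x y)
    (ha0 : a0 ∈ A)
    (hA : ∀ a ∈ A, a < L ∧ β a = b ∧ R.Reachable (rt r w i) (u a) ∧ cs R (w a) ≤ s)
    (hiA : ∀ a ∈ A, i ≤ a)
    (huinj : ∀ a ∈ A, ∀ c ∈ A, a ≠ c → u a ≠ u c)
    (hcard : A.card = 1 ∨ s + 2 ≤ A.card)
    (hY1 : (Y : Set (Sym2 V)) ⊆ R.edgeSet) (hY2 : Y.card + 1 = A.card)
    (hY3 : ∀ e ∈ Y, ∀ z ∈ e, R.Reachable (rt r w i) z)
    (hY4 : ∀ a ∈ A, ∀ c ∈ A, a ≠ c →
      ¬ (R.deleteEdges (Y : Set (Sym2 V))).Reachable (u a) (u c))
    (p1 : ∀ c, (F' c).IsTree)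
    (p2 : ∀ x y, ((∃ c, (T c).Adj x y) ∧ ¬ ∃ a ∈ A, s(x, y) = s(u a, w a)) ∨
      (s(x, y) ∈ Y) ∨ s(x, y) = e → ∃ c, (F' c).Adj x y)
    (p3 : e ∈ R.edgeSet) (p3' : e ∉ Y) (p4 : Leg F' R r u w β l') (p4' : l' ≤ i)
    (p5 : R.Reachable (rt r w l') v') (p5' : ¬ (R.deleteEdges {e}).Reachable (rt r w l') v')
    (p6 : l' = i → v' = u a0) :
    ∃ R' : SimpleGraph V, Cfg G F' R' ∧
      R'.edgeSet.ncard ≤ R.edgeSet.ncard ∧ Leg F' R' r u w β l' ∧
      (∀ a, a < l' → St R' r w a = St R r w a) ∧
      (∀ v, cs R' v ≤ cs R v ∨ cs R' v + A.card ≤ cs R (rt r w i) + 1 + s) ∧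
      (St R' r w l').ncard < (St R r w l').ncard := by
  classical
  set H : SimpleGraph V := R.deleteEdges (insert e (Y : Set (Sym2 V))) with hH
  have hHR : H ≤ R := deleteEdges_le _
  have hHe : H ≤ R.deleteEdges {e} := by
    rw [hH]
    exact deleteEdges_anti (by
      intro x hx
      rw [Set.mem_singleton_iff] at hx
      exact Or.inl hx)
  have hHY : H ≤ R.deleteEdges (Y : Set (Sym2 V)) := by
    rw [hH]
    exact deleteEdges_anti (fun x hx => Or.inr hx)
  set M : SimpleGraph V := fromEdgeSet {e | ∃ a ∈ A, e = s(u a, w a)} with hM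
  have hiL : i < L := (hiA a0 ha0).trans_lt (hA a0 ha0).1
  -- facts on distinct components
  have d1 : ∀ a ∈ A, ∀ c ∈ A, ¬ R.Reachable (u a) (w c) := by
    intro a ha c hc h
    have h1 := (hA a ha).2.2.1
    exact rt_dist hL (c := i) (d := c + 1) (by have := hiA c hc; omega)
      (by have := (hA c hc).1; omega) (h1.trans h)
  have d2 : ∀ a ∈ A, ∀ c ∈ A, a ≠ c → ¬ R.Reachable (w a) (w c) := by
    intro a ha c hc hac h
    rcases Nat.lt_or_gt_of_ne hac with h1 | h1
    · exact rt_dist hL (c := a + 1) (d := c + 1) (by omega)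
        (by have := (hA c hc).1; omega) h
    · exact rt_dist hL (c := c + 1) (d := a + 1) (by omega)
        (by have := (hA a ha).1; omega) h.symm
  have d3 : ∀ a ∈ A, ∀ c ∈ A, a ≠ c → ¬ H.Reachable (u a) (u c) :=
    fun a ha c hc hac h => hY4 a ha c hc hac (h.mono hHY)
  obtain ⟨hJ1, hJ2⟩ := hJOIN V H A u w (IsAcyclic.anti hHR hC.acyc) d3
    (fun a ha c hc hac h => d2 a ha c hc hac (h.mono hHR))
    (fun a ha c hc h => d1 a ha c hc (h.mono hHR))
  set R' : SimpleGraph V := H ⊔ M with hR'
  have hMadj : ∀ a ∈ A, R'.Adj (u a) (w a) := by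
    intro a ha
    right
    rw [hM, fromEdgeSet_adj]
    refine ⟨⟨a, ha, rfl⟩, fun h => d1 a ha a ha (h ▸ Reachable.refl _)⟩
  have d4 : ∀ a ∈ A, ∀ c, c < i → ¬ R.Reachable (u a) (rt r w c) := by
    intro a ha c hc h
    exact rt_dist hL hc (by omega) ((hA a ha).2.2.1.trans h).symm
  have d5 : ∀ a ∈ A, ∀ c, c ≤ i → ¬ R.Reachable (w a) (rt r w c) := by
    intro a ha c hc h
    exact rt_dist hL (c := c) (d := a + 1) (by have := hiA a ha; omega)
      (by have := (hA a ha).1; omega) h.symm
  have hre : ∀ z ∈ e, R.Reachable (rt r w l') z := ends_reach p5 p5'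
  -- component of rt c, c < l'
  have hcomp : ∀ c, c < l' → ∀ v, R'.Reachable (rt r w c) v ↔ R.Reachable (rt r w c) v := by
    intro c hc v
    constructor
    · intro h
      rcases hJ2 _ _ h with h1 | ⟨a, ha, h1 | h1, -⟩
      · exact h1.mono hHR
      · exact absurd (h1.mono hHR) (d4 a ha c (by omega))
      · exact absurd (h1.mono hHR) (d5 a ha c (by omega))
    · intro h
      have h1 : H.Reachable (rt r w c) v := by
        refine reach_delete ?_ h
        intro e' he' z hz hr
        rcases he' with rfl | he'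
        · exact rt_dist hL hc (by omega) (hr.trans (hre z hz).symm)
        · exact rt_dist hL (c := c) (d := i) (by omega) (by omega)
            (hr.trans (hY3 e' he' z hz).symm)
      exact h1.mono le_sup_left
  have hSt : ∀ a, a < l' → St R' r w a = St R r w a := by
    intro a ha
    ext v
    constructor
    · rintro ⟨c, hc, h⟩
      exact ⟨c, hc, (hcomp c (by omega) v).1 h⟩
    · rintro ⟨c, hc, h⟩
      exact ⟨c, hc, (hcomp c (by omega) v).2 h⟩
  have hsub : ∀ a ∈ A, ∀ z, R'.Reachable (u a) z → H.Reachable (u a) z ∨ H.Reachable (w a) z := by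
    intro a ha z hz
    rcases hJ2 _ _ hz with h1 | ⟨c, hc, h1 | h1, h2⟩
    · exact Or.inl h1
    · by_cases hac : a = c
      · subst hac
        exact h2
      · exact absurd h1 (d3 c hc a ha (Ne.symm hac))
    · exact absurd (h1.mono hHR).symm (d1 a ha c hc)
  -- size of the new components
  have hsize : ∀ a ∈ A, cs R' (u a) + A.card ≤ cs R (rt r w i) + 1 + s := by
    intro a ha
    have h1 : {z | R'.Reachable (u a) z} ⊆ {z | H.Reachable (u a) z} ∪ {z | R.Reachable (w a) z} := by
      intro z hz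
      rcases hsub a ha z hz with h | h
      · exact Or.inl h
      · exact Or.inr (h.mono hHR)
    have h2 : cs R' (u a) ≤ {z | H.Reachable (u a) z}.ncard + cs R (w a) :=
      (Set.ncard_le_ncard h1 (Set.toFinite _)).trans (Set.ncard_union_le _ _)
    have h3 : {z | H.Reachable (u a) z} ∪ (((A.erase a).image u : Finset V) : Set V) ⊆
        {z | R.Reachable (rt r w i) z} := by
      rintro z (hz | hz)
      · exact (hA a ha).2.2.1.trans (Reachable.mono hHR hz)
      · rw [Finset.mem_coe, Finset.mem_image] at hz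
        obtain ⟨c, hc, rfl⟩ := hz
        exact (hA c (Finset.mem_of_mem_erase hc)).2.2.1
    have h4 : Disjoint {z | H.Reachable (u a) z} (((A.erase a).image u : Finset V) : Set V) := by
      rw [Set.disjoint_left]
      intro z hz hz'
      rw [Finset.mem_coe, Finset.mem_image] at hz'
      obtain ⟨c, hc, rfl⟩ := hz'
      exact d3 a ha c (Finset.mem_of_mem_erase hc) (Ne.symm (Finset.ne_of_mem_erase hc)) hz
    have h5 : ((A.erase a).image u).card = A.card - 1 := by
      rw [Finset.card_image_of_injOn, Finset.card_erase_of_mem ha]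
      intro c hc d hd hcd
      by_contra hne
      exact huinj c (Finset.mem_of_mem_erase hc) d (Finset.mem_of_mem_erase hd) hne hcd
    have h6 := Set.ncard_le_ncard h3 (Set.toFinite _)
    rw [Set.ncard_union_eq h4 (Set.toFinite _) (Set.toFinite _), Set.ncard_coe_finset, h5] at h6
    have h7 := (hA a ha).2.2.2
    have h8 : 0 < A.card := Finset.card_pos.2 ⟨a, ha⟩
    have h9 : cs R (rt r w i) = {z | R.Reachable (rt r w i) z}.ncard := rfl
    omega
  refine ⟨R', ⟨p1, hJ1, ?_, ?_⟩, ?_, ?_, hSt, ?_, ?_⟩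
  · -- R' ≤ G
    refine sup_le (hHR.trans hC.le) ?_
    intro x y hxy
    rw [hM, fromEdgeSet_adj] at hxy
    obtain ⟨⟨a, ha, he⟩, -⟩ := hxy
    obtain ⟨h1, h2, h3⟩ := hL a (hA a ha).1
    have h4 := (hred (u a) (st_mono (hA a ha).1.le h1) (β a) (w a) h3).1
    rcases Sym2.eq_iff.1 he with ⟨rfl, rfl⟩ | ⟨rfl, rfl⟩
    · exact h4
    · exact h4.symm
  · -- cover
    intro x y hxy
    rcases hC.cov x y hxy with h | h
    · by_cases h1 : s(x, y) ∈ insert e (Y : Set (Sym2 V))
      · right
        rcases h1 with h1 | h1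
        · exact p2 x y (Or.inr (Or.inr h1))
        · exact p2 x y (Or.inr (Or.inl h1))
      · left
        left
        rw [hH, deleteEdges_adj]
        exact ⟨h, h1⟩
    · by_cases h1 : ∃ a ∈ A, s(x, y) = s(u a, w a)
      · left
        right
        rw [hM, fromEdgeSet_adj]
        exact ⟨h1, hxy.ne⟩
      · right
        exact p2 x y (Or.inl ⟨h, h1⟩)
  · -- number of edges
    have h1 : R'.edgeSet ⊆ (R.edgeSet \ ((insert e Y : Finset (Sym2 V)) : Set (Sym2 V))) ∪
        ((A.image fun a => s(u a, w a) : Finset (Sym2 V)) : Set (Sym2 V)) := by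
      intro e' he'
      rw [hR', edgeSet_sup] at he'
      rcases he' with he' | he'
      · left
        rw [hH, edgeSet_deleteEdges] at he'
        refine ⟨he'.1, ?_⟩
        simpa using he'.2
      · right
        rw [hM, edgeSet_fromEdgeSet] at he'
        obtain ⟨⟨a, ha, rfl⟩, -⟩ := he'
        rw [Finset.mem_coe, Finset.mem_image]
        exact ⟨a, ha, rfl⟩
    have h2 := (Set.ncard_le_ncard h1 (Set.toFinite _)).trans (Set.ncard_union_le _ _)
    have h3 : ((insert e Y : Finset (Sym2 V)) : Set (Sym2 V)) ⊆ R.edgeSet := by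
      rw [Finset.coe_insert]
      exact Set.insert_subset p3 hY1
    rw [Set.ncard_sdiff h3 (Set.toFinite _), Set.ncard_coe_finset, Set.ncard_coe_finset,
      Finset.card_insert_of_notMem p3'] at h2
    have h4 : (A.image fun a => s(u a, w a)).card ≤ A.card := Finset.card_image_le
    have h5 := Set.ncard_le_ncard h3 (Set.toFinite _)
    rw [Set.ncard_coe_finset, Finset.card_insert_of_notMem p3'] at h5
    omega
  · -- Leg
    intro a ha
    obtain ⟨h1, h2, h3⟩ := p4 a ha
    rw [hSt a ha]
    exact ⟨h1, h2, h3⟩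
  · -- sizes
    intro v
    by_cases h : ∃ a ∈ A, H.Reachable (u a) v ∨ H.Reachable (w a) v
    · right
      obtain ⟨a, ha, h1⟩ := h
      have h2 : R'.Reachable (u a) v := by
        rcases h1 with h1 | h1
        · exact h1.mono le_sup_left
        · exact (hMadj a ha).reachable.trans (h1.mono le_sup_left)
      rw [← cs_congr h2]
      exact hsize a ha
    · left
      refine Set.ncard_le_ncard ?_ (Set.toFinite _)
      intro z hz
      rcases hJ2 _ _ hz with h1 | ⟨a, ha, h1, -⟩
      · exact h1.mono hHR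
      · exact absurd ⟨a, ha, h1⟩ h
  · -- strict decrease
    have hstr : ∀ q, H.Reachable (rt r w l') q → R.Reachable (rt r w l') q :=
      fun q h => h.mono hHR
    have hlt : (∀ z, R'.Reachable (rt r w l') z → H.Reachable (rt r w l') z) →
        cs R' (rt r w l') < cs R (rt r w l') := by
      intro h
      have hss : {x | R'.Reachable (rt r w l') x} ⊆ {x | R.Reachable (rt r w l') x} :=
        fun z hz => hstr z (h z hz)
      refine Set.ncard_lt_ncard ?_ (Set.toFinite _)
      exact (Set.ssubset_iff_of_subset hss).2 ⟨v', p5, fun hz => p5' ((h v' hz).mono hHe)⟩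
    have hcs : cs R' (rt r w l') < cs R (rt r w l') := by
      by_cases hli : l' = i
      · have hv := p6 hli
        by_cases h : ∃ a ∈ A, H.Reachable (u a) (rt r w l')
        · obtain ⟨a, ha, h1⟩ := h
          rcases hcard with h2 | h2
          · exfalso
            obtain ⟨c, hc⟩ := Finset.card_eq_one.1 h2
            rw [hc, Finset.mem_singleton] at ha ha0
            rw [ha, ← ha0, ← hv] at h1
            exact p5' (h1.symm.mono hHe)
          · have h3 := hsize a ha
            have h4 : R'.Reachable (u a) (rt r w l') := h1.mono le_sup_left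
            rw [cs_congr h4] at h3
            rw [hli] at h3 ⊢
            omega
        · apply hlt
          intro z hz
          rcases hJ2 _ _ hz with h1 | ⟨a, ha, h1 | h1, -⟩
          · exact h1
          · exact absurd ⟨a, ha, h1⟩ h
          · exact absurd (h1.mono hHR) (d5 a ha l' p4')
      · apply hlt
        intro z hz
        rcases hJ2 _ _ hz with h1 | ⟨a, ha, h1 | h1, -⟩
        · exact h1
        · exact absurd (h1.mono hHR) (d4 a ha l' (by omega))
        · exact absurd (h1.mono hHR) (d5 a ha l' p4')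
    have hQ : ∀ R₀ : SimpleGraph V, St R₀ r w l' =
        {v | ∃ c, c < l' ∧ R₀.Reachable (rt r w c) v} ∪ {v | R₀.Reachable (rt r w l') v} := by
      intro R₀
      ext v
      constructor
      · rintro ⟨c, hc, h⟩
        rcases Nat.lt_or_ge c l' with h1 | h1
        · exact Or.inl ⟨c, h1, h⟩
        · have : c = l' := le_antisymm hc h1
          exact Or.inr (this ▸ h)
      · rintro (⟨c, hc, h⟩ | h)
        · exact ⟨c, hc.le, h⟩
        · exact ⟨l', le_refl _, h⟩
    have hQ' : {v | ∃ c, c < l' ∧ R'.Reachable (rt r w c) v} =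
        {v | ∃ c, c < l' ∧ R.Reachable (rt r w c) v} := by
      ext v
      constructor
      · rintro ⟨c, hc, h⟩
        exact ⟨c, hc, (hcomp c hc v).1 h⟩
      · rintro ⟨c, hc, h⟩
        exact ⟨c, hc, (hcomp c hc v).2 h⟩
    rw [hQ R', hQ R, hQ']
    have h1 : Disjoint {v | ∃ c, c < l' ∧ R.Reachable (rt r w c) v}
        {v | R.Reachable (rt r w l') v} := by
      rw [Set.disjoint_left]
      rintro v ⟨c, hc, h⟩ h'
      exact rt_dist hL hc (by omega) (h.trans (Reachable.symm h'))
    rw [Set.ncard_union_eq h1 (Set.toFinite _) (Set.toFinite _)]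
    have h2 := Set.ncard_union_le {v | ∃ c, c < l' ∧ R.Reachable (rt r w c) v}
      {v | R'.Reachable (rt r w l') v}
    have h3 : cs R' (rt r w l') = {v | R'.Reachable (rt r w l') v}.ncard := rfl
    have h4 : cs R (rt r w l') = {v | R.Reachable (rt r w l') v}.ncard := rfl
    omega

end Pool.Agent.Run7.h970.ND
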